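import Mathlib

/-!
# The flow `u ↦ (p^{-iu})_p` on the infinite torus is uniquely ergodic
-/

set_option autoImplicit false

namespace Pool.Agent.V8H35.BJ

open MeasureTheory Filter Topology Complex AddCircle
open scoped ComplexConjugate

/-- the infinite torus -/
abbrev Om : Type := Nat.Primes → UnitAddCircle

/-- the law of independent uniform random angles, one for each prime -/
noncomputable def Pr : Measure Om :=
  Measure.infinitePi fun _ : Nat.Primes => (haarAddCircle : Measure UnitAddCircle)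

instance : IsProbabilityMeasure Pr := by
  unfold Pr
  infer_instance

/-- the characters of the torus -/
noncomputable def chi (n : Nat.Primes →₀ ℤ) : C(Om, ℂ) where
  toFun ω := n.prod fun p k => fourier k (ω p)
  continuous_toFun := by
    unfold Finsupp.prod
    exact continuous_finsetProd _ fun p _ => (map_continuous _).comp (continuous_apply p)

lemma chi_apply (n : Nat.Primes →₀ ℤ) (ω : Om) : chi n ω = n.prod fun p k => fourier k (ω p) := rfl

lemma chi_zero : chi 0 = 1 := by
  ext ω
  simp [chi_apply]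

lemma chi_add (m n : Nat.Primes →₀ ℤ) : chi (m + n) = chi m * chi n := by
  classical
  ext ω
  rw [ContinuousMap.mul_apply, chi_apply, chi_apply, chi_apply]
  exact Finsupp.prod_add_index' (fun p => fourier_zero) fun p a b => fourier_add

lemma chi_neg (n : Nat.Primes →₀ ℤ) : chi (-n) = star (chi n) := by
  ext ω
  rw [ContinuousMap.star_apply, chi_apply, chi_apply,
    Finsupp.prod_neg_index (h := fun (p : Nat.Primes) (k : ℤ) => fourier k (ω p))
      (fun p => fourier_zero)]
  unfold Finsupp.prod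
  rw [star_prod]
  exact Finset.prod_congr rfl fun p _ => fourier_neg

lemma norm_fourier_apply (k : ℤ) (x : UnitAddCircle) : ‖fourier k x‖ = 1 := by
  rw [fourier_apply]
  exact Circle.norm_coe _

lemma integral_fourier (k : ℤ) :
    ∫ x : UnitAddCircle, fourier k x ∂haarAddCircle = if k = 0 then 1 else 0 := by
  have h := congrFun (fourierCoeff_fourier (T := 1) k) 0
  unfold fourierCoeff at h
  simp only [neg_zero, fourier_zero, one_smul] at h
  rw [h, Pi.single_apply]
  by_cases hk : k = 0
  · simp [hk]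
  · rw [if_neg (fun h => hk h.symm), if_neg hk]

lemma integral_chi (n : Nat.Primes →₀ ℤ) : ∫ ω, chi n ω ∂Pr = if n = 0 then 1 else 0 := by
  classical
  set g : (n.support → UnitAddCircle) → ℂ := fun y => ∏ i : n.support, fourier (n i) (y i) with hg
  have h1 : ∀ ω : Om, chi n ω = g (n.support.restrict ω) := by
    intro ω
    rw [chi_apply, hg]
    unfold Finsupp.prod
    rw [← Finset.prod_coe_sort]
    rfl
  have hgc : Continuous g := continuous_finsetProd _ fun i _ =>
    (map_continuous (fourier (n i))).comp (continuous_apply i)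
  have h2 : ∫ ω, chi n ω ∂Pr = ∫ ω, g (n.support.restrict ω) ∂Pr :=
    integral_congr_ae (Eventually.of_forall h1)
  have h3 : ∫ ω, g (n.support.restrict ω) ∂Pr =
      ∫ y, g y ∂(Measure.pi fun _ : n.support => (haarAddCircle : Measure UnitAddCircle)) :=
    integral_restrict_infinitePi
      (μ := fun _ : Nat.Primes => (haarAddCircle : Measure UnitAddCircle)) (s := n.support)
      (f := g) hgc.aestronglyMeasurable
  rw [h2, h3, hg, integral_fintype_prod_eq_prod]
  simp_rw [integral_fourier]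
  split_ifs with h
  · subst h
    simp
  · obtain ⟨p, hp⟩ := Finsupp.ne_iff.1 h
    rw [Finset.prod_eq_zero (i := ⟨p, Finsupp.mem_support_iff.2 hp⟩) (Finset.mem_univ _)]
    rw [if_neg]
    exact hp

/-- the trigonometric polynomials -/
noncomputable def tri : StarSubalgebra ℂ C(Om, ℂ) where
  toSubalgebra := Algebra.adjoin ℂ (Set.range chi)
  star_mem' := by
    change Algebra.adjoin ℂ (Set.range chi) ≤ star (Algebra.adjoin ℂ (Set.range chi))
    refine Algebra.adjoin_le ?_
    rintro - ⟨n, rfl⟩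
    exact Algebra.subset_adjoin ⟨-n, chi_neg n⟩

lemma tri_coe : Subalgebra.toSubmodule tri.toSubalgebra = Submodule.span ℂ (Set.range chi) := by
  apply Algebra.adjoin_eq_span_of_subset
  refine Set.Subset.trans ?_ Submodule.subset_span
  intro x hx
  refine Submonoid.closure_induction (fun _ => id) ⟨0, chi_zero⟩ ?_ hx
  rintro - - - - ⟨m, rfl⟩ ⟨n, rfl⟩
  exact ⟨m + n, chi_add m n⟩

lemma tri_sep : tri.SeparatesPoints := by
  intro x y hxy
  obtain ⟨p, hp⟩ := Function.ne_iff.1 hxy
  refine ⟨_, ⟨chi (Finsupp.single p 1), Algebra.subset_adjoin ⟨_, rfl⟩, rfl⟩, ?_⟩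
  dsimp only
  rw [chi_apply, chi_apply,
    Finsupp.prod_single_index (h := fun (p : Nat.Primes) (k : ℤ) => fourier k (x p)) fourier_zero,
    Finsupp.prod_single_index (h := fun (p : Nat.Primes) (k : ℤ) => fourier k (y p)) fourier_zero,
    fourier_one, fourier_one]
  intro h
  rw [Circle.coe_inj] at h
  exact hp (injective_toCircle one_ne_zero h)

lemma tri_dense : tri.topologicalClosure = ⊤ :=
  ContinuousMap.starSubalgebra_topologicalClosure_eq_top_of_separatesPoints tri tri_sep

lemma span_dense : (Submodule.span ℂ (Set.range chi)).topologicalClosure = ⊤ := by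
  rw [← tri_coe]
  exact congr_arg (Subalgebra.toSubmodule <| StarSubalgebra.toSubalgebra ·) tri_dense

/-! ### the flow -/

/-- the flow -/
noncomputable def fl (u : ℝ) : Om := fun p => ((-(u * Real.log (p : ℕ)) / (2 * Real.pi) : ℝ) : UnitAddCircle)

lemma continuous_fl : Continuous fl := by
  unfold fl
  refine continuous_pi fun p => ?_
  exact continuous_quotient_mk'.comp (by fun_prop)

/-- the frequency of a character -/
noncomputable def frq (n : Nat.Primes →₀ ℤ) : ℝ := n.sum fun p k => (k : ℝ) * Real.log (p : ℕ)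

lemma fourier_fl (k : ℤ) (u : ℝ) (p : Nat.Primes) :
    fourier k (fl u p) = Complex.exp (((-(k * Real.log (p : ℕ)) * u : ℝ) : ℂ) * I) := by
  unfold fl
  rw [fourier_coe_apply]
  congr 1
  push_cast
  have : (Real.pi : ℂ) ≠ 0 := by exact_mod_cast Real.pi_ne_zero
  field_simp

lemma chi_fl (n : Nat.Primes →₀ ℤ) (u : ℝ) :
    chi n (fl u) = Complex.exp (((-(frq n) * u : ℝ) : ℂ) * I) := by
  rw [chi_apply]
  unfold Finsupp.prod frq Finsupp.sum
  simp_rw [fourier_fl]
  rw [← Complex.exp_sum, ← Finset.sum_mul]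
  congr 2
  push_cast
  rw [← Finset.sum_mul, Finset.sum_neg_distrib]

lemma frq_eq_zero {n : Nat.Primes →₀ ℤ} (h : frq n = 0) : n = 0 := by
  classical
  set e : Nat.Primes ↪ ℕ := ⟨fun p => (p : ℕ), Nat.Primes.coe_nat_injective⟩ with he
  have key : ∀ m : Nat.Primes →₀ ℤ, ∃ f : ℕ →₀ ℕ, (∀ p ∈ f.support, p.Prime) ∧
      (∀ p : Nat.Primes, f p = (m p).toNat) ∧
      Real.log ((f.prod (· ^ ·) : ℕ) : ℝ) = m.sum fun p k => ((k.toNat : ℕ) : ℝ) * Real.log (p : ℕ) := by
    intro m
    refine ⟨(m.mapRange Int.toNat rfl).embDomain e, ?_, ?_, ?_⟩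
    · intro p hp
      rw [Finsupp.support_embDomain, Finset.mem_map] at hp
      obtain ⟨q, -, rfl⟩ := hp
      exact q.2
    · intro p
      change (m.mapRange Int.toNat rfl).embDomain e (e p) = _
      rw [Finsupp.embDomain_apply_self, Finsupp.mapRange_apply]
    · rw [Finsupp.prod_embDomain, Finsupp.prod_mapRange_index (fun _ => pow_zero _)]
      unfold Finsupp.prod Finsupp.sum
      push_cast
      rw [Real.log_prod (fun p _ => pow_ne_zero _ (by exact_mod_cast p.2.ne_zero))]
      refine Finset.sum_congr rfl fun p _ => ?_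
      rw [Real.log_pow]
      rfl
  obtain ⟨f, hf1, hf2, hf3⟩ := key n
  obtain ⟨g, hg1, hg2, hg3⟩ := key (-n)
  have hpos : ∀ f : ℕ →₀ ℕ, (∀ p ∈ f.support, p.Prime) → (0 : ℝ) < ((f.prod (· ^ ·) : ℕ) : ℝ) := by
    intro f hf
    have : 0 < f.prod (· ^ ·) := Finset.prod_pos fun p hp => pow_pos (hf p hp).pos _
    exact_mod_cast this
  have h1 : Real.log ((f.prod (· ^ ·) : ℕ) : ℝ) = Real.log ((g.prod (· ^ ·) : ℕ) : ℝ) := by
    rw [hf3, hg3, Finsupp.sum_neg_index (fun p => by simp)]
    rw [← sub_eq_zero]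
    unfold frq at h
    unfold Finsupp.sum at h ⊢
    rw [← Finset.sum_sub_distrib]
    rw [← h]
    refine Finset.sum_congr rfl fun p _ => ?_
    have h2 : (((n p).toNat : ℕ) : ℝ) - (((-(n p)).toNat : ℕ) : ℝ) = (n p : ℝ) := by
      have h3 : (((n p).toNat : ℕ) : ℤ) - (((-(n p)).toNat : ℕ) : ℤ) = n p := by omega
      exact_mod_cast congrArg (fun z : ℤ => (z : ℝ)) h3
    show (((n p).toNat : ℕ) : ℝ) * Real.log ((p : ℕ) : ℝ) -
      (((-(n p)).toNat : ℕ) : ℝ) * Real.log ((p : ℕ) : ℝ) = (n p : ℝ) * Real.log ((p : ℕ) : ℝ)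
    rw [← h2]
    ring
  have h2 : f.prod (· ^ ·) = g.prod (· ^ ·) := by
    have := Real.log_injOn_pos (Set.mem_Ioi.2 (hpos f hf1)) (Set.mem_Ioi.2 (hpos g hg1)) h1
    exact_mod_cast this
  have h3 : f = g := by
    have e1 := Nat.prod_pow_factorization_eq_self hf1
    have e2 := Nat.prod_pow_factorization_eq_self hg1
    rw [← e1, ← e2, h2]
  ext p
  have h4 : (n p).toNat = (-(n p)).toNat := by
    have := hf2 p
    have h5 := hg2 p
    rw [h3] at this
    rw [← this, h5]
    simp
  rw [Finsupp.zero_apply]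
  omega

/-! ### equidistribution, uniformly in the initial point -/

/-- the mean over an interval -/
noncomputable def av (f : ℝ → ℂ) (t T : ℝ) : ℂ := (T : ℂ)⁻¹ * ∫ u in t..(t + T), f u

/-- uniform convergence of the means of `f` to `c` -/
def Mean (f : ℝ → ℂ) (c : ℂ) : Prop :=
  ∀ ε : ℝ, 0 < ε → ∃ T₀ : ℝ, 0 < T₀ ∧ ∀ T : ℝ, T₀ ≤ T → ∀ t : ℝ, ‖av f t T - c‖ ≤ ε

lemma Mean.const (c : ℂ) : Mean (fun _ => c) c := by
  intro ε hε
  refine ⟨1, one_pos, fun T hT t => ?_⟩
  have hT0 : (T : ℂ) ≠ 0 := by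
    have : T ≠ 0 := by linarith
    exact_mod_cast this
  unfold av
  rw [intervalIntegral.integral_const, add_sub_cancel_left, Complex.real_smul, ← mul_assoc,
    inv_mul_cancel₀ hT0, one_mul, sub_self, norm_zero]
  exact hε.le

lemma Mean.add {f g : ℝ → ℂ} {c d : ℂ} (hf : Mean f c) (hg : Mean g d)
    (hfi : ∀ a b : ℝ, IntervalIntegrable f volume a b)
    (hgi : ∀ a b : ℝ, IntervalIntegrable g volume a b) : Mean (fun u => f u + g u) (c + d) := by
  intro ε hε
  obtain ⟨T1, h1, h2⟩ := hf (ε / 2) (by positivity)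
  obtain ⟨T2, h3, h4⟩ := hg (ε / 2) (by positivity)
  refine ⟨max T1 T2, lt_of_lt_of_le h1 (le_max_left _ _), fun T hT t => ?_⟩
  have e : av (fun u => f u + g u) t T - (c + d) = (av f t T - c) + (av g t T - d) := by
    unfold av
    rw [intervalIntegral.integral_add (hfi _ _) (hgi _ _)]
    ring
  rw [e]
  refine (norm_add_le _ _).trans ?_
  have := h2 T ((le_max_left _ _).trans hT) t
  have := h4 T ((le_max_right _ _).trans hT) t
  linarith

lemma Mean.const_mul {f : ℝ → ℂ} {c : ℂ} (hf : Mean f c) (a : ℂ) :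
    Mean (fun u => a * f u) (a * c) := by
  intro ε hε
  obtain ⟨T1, h1, h2⟩ := hf (ε / (‖a‖ + 1)) (by positivity)
  refine ⟨T1, h1, fun T hT t => ?_⟩
  have e : av (fun u => a * f u) t T - a * c = a * (av f t T - c) := by
    unfold av
    rw [intervalIntegral.integral_const_mul]
    ring
  rw [e, norm_mul]
  have h3 := h2 T hT t
  have h4 : ‖a‖ * ‖av f t T - c‖ ≤ (‖a‖ + 1) * (ε / (‖a‖ + 1)) :=
    mul_le_mul (by linarith) h3 (norm_nonneg _) (by positivity)
  refine h4.trans (le_of_eq ?_)
  field_simp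

lemma norm_av_le {f : ℝ → ℂ} {C : ℝ} (hC : ∀ u, ‖f u‖ ≤ C) (t : ℝ) {T : ℝ} (hT : 0 < T) :
    ‖av f t T‖ ≤ C := by
  unfold av
  rw [norm_mul, norm_inv, Complex.norm_real, Real.norm_of_nonneg hT.le]
  have h1 : ‖∫ u in t..(t + T), f u‖ ≤ C * |t + T - t| :=
    intervalIntegral.norm_integral_le_of_norm_le_const fun u _ => hC u
  rw [add_sub_cancel_left, abs_of_pos hT] at h1
  calc T⁻¹ * ‖∫ u in t..(t + T), f u‖ ≤ T⁻¹ * (C * T) :=
        mul_le_mul_of_nonneg_left h1 (by positivity)
    _ = C := by field_simp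

lemma Mean.exp {l : ℝ} (hl : l ≠ 0) : Mean (fun u => Complex.exp (((l * u : ℝ) : ℂ) * I)) 0 := by
  intro ε hε
  refine ⟨2 / (|l| * ε), by positivity, fun T hT t => ?_⟩
  have hl0 : 0 < |l| := abs_pos.2 hl
  have hT0 : 0 < T := lt_of_lt_of_le (by positivity) hT
  rw [sub_zero]
  unfold av
  have hlI : (l * I : ℂ) ≠ 0 := mul_ne_zero (by exact_mod_cast hl) I_ne_zero
  have h3 : ∀ x : ℝ, Complex.exp (((l * x : ℝ) : ℂ) * I) = Complex.exp (l * I * x) := by
    intro x
    congr 1
    push_cast
    ring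
  simp_rw [h3]
  rw [integral_exp_mul_complex hlI, norm_mul, norm_inv, Complex.norm_real,
    Real.norm_of_nonneg hT0.le, norm_div, norm_mul, norm_I, mul_one, Complex.norm_real,
    Real.norm_eq_abs]
  have h4 : ‖Complex.exp (l * I * ((t + T : ℝ) : ℂ)) - Complex.exp (l * I * (t : ℂ))‖ ≤ 2 := by
    refine (norm_sub_le _ _).trans ?_
    rw [← h3, ← h3, Complex.norm_exp_ofReal_mul_I, Complex.norm_exp_ofReal_mul_I]
    norm_num
  calc T⁻¹ * (‖Complex.exp (l * I * ((t + T : ℝ) : ℂ)) - Complex.exp (l * I * (t : ℂ))‖ / |l|)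
      ≤ T⁻¹ * (2 / |l|) := by gcongr
    _ ≤ ε := by
        rw [inv_mul_le_iff₀ hT0, div_le_iff₀ hl0]
        rw [div_le_iff₀ (by positivity)] at hT
        linarith

/-- **Equidistribution of the flow.** -/
theorem equi (F : C(Om, ℂ)) : Mean (fun u => F (fl u)) (∫ ω, F ω ∂Pr) := by
  have hcont : ∀ G : C(Om, ℂ), Continuous fun u => G (fl u) := fun G =>
    (map_continuous G).comp continuous_fl
  have hint : ∀ G : C(Om, ℂ), Integrable (fun ω => G ω) Pr := fun G =>
    (BoundedContinuousFunction.mkOfCompact G).integrable Pr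
  -- the characters
  have h1 : ∀ G ∈ Submodule.span ℂ (Set.range chi), Mean (fun u => G (fl u)) (∫ ω, G ω ∂Pr) := by
    intro G hG
    induction hG using Submodule.span_induction with
    | mem x hx =>
      obtain ⟨n, rfl⟩ := hx
      rw [integral_chi]
      simp_rw [chi_fl]
      split_ifs with h
      · subst h
        have : (fun u : ℝ => Complex.exp (((-(frq 0) * u : ℝ) : ℂ) * I)) = fun _ => 1 := by
          funext u
          simp [frq]
        rw [this]
        exact Mean.const 1
      · exact Mean.exp (neg_ne_zero.2 fun h0 => h (frq_eq_zero h0))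
    | zero =>
      simp only [ContinuousMap.zero_apply, integral_zero]
      exact Mean.const 0
    | add x y _ _ hx hy =>
      have := hx.add hy (fun a b => (hcont x).intervalIntegrable a b)
        (fun a b => (hcont y).intervalIntegrable a b)
      simp only [ContinuousMap.add_apply]
      rw [integral_add (hint x) (hint y)]
      exact this
    | smul a x _ hx =>
      have := hx.const_mul a
      simp only [ContinuousMap.smul_apply, smul_eq_mul]
      rw [integral_const_mul]
      exact this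
  -- approximation
  have h2 : F ∈ closure ((Submodule.span ℂ (Set.range chi) : Submodule ℂ C(Om, ℂ)) : Set C(Om, ℂ)) := by
    have h3 : F ∈ (Submodule.span ℂ (Set.range chi)).topologicalClosure := by
      rw [span_dense]
      trivial
    exact h3
  intro ε hε
  obtain ⟨G, hG, hFG⟩ := Metric.mem_closure_iff.1 h2 (ε / 3) (by positivity)
  obtain ⟨T₀, hT₀, h3⟩ := h1 G hG (ε / 3) (by positivity)
  refine ⟨T₀, hT₀, fun T hT t => ?_⟩
  have hT0 : 0 < T := lt_of_lt_of_le hT₀ hT
  have hd : ∀ ω, ‖F ω - G ω‖ ≤ ε / 3 := by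
    intro ω
    rw [← dist_eq_norm]
    exact (ContinuousMap.dist_apply_le_dist ω).trans hFG.le
  have e1 : ‖av (fun u => F (fl u)) t T - av (fun u => G (fl u)) t T‖ ≤ ε / 3 := by
    have : av (fun u => F (fl u)) t T - av (fun u => G (fl u)) t T =
        av (fun u => F (fl u) - G (fl u)) t T := by
      unfold av
      rw [intervalIntegral.integral_sub ((hcont F).intervalIntegrable _ _)
        ((hcont G).intervalIntegrable _ _)]
      ring
    rw [this]
    exact norm_av_le (fun u => hd _) t hT0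
  have e2 : ‖∫ ω, G ω ∂Pr - ∫ ω, F ω ∂Pr‖ ≤ ε / 3 := by
    rw [← integral_sub (hint G) (hint F)]
    refine (norm_integral_le_of_norm_le_const (μ := Pr) (C := ε / 3)
      (Eventually.of_forall fun ω => ?_)).trans (le_of_eq ?_)
    · rw [norm_sub_rev]
      exact hd ω
    · simp
  calc _ = ‖(av (fun u => F (fl u)) t T - av (fun u => G (fl u)) t T) +
        (av (fun u => G (fl u)) t T - ∫ ω, G ω ∂Pr) + (∫ ω, G ω ∂Pr - ∫ ω, F ω ∂Pr)‖ := by
        congr 1
        ring
    _ ≤ ε / 3 + ε / 3 + ε / 3 := by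
        refine (norm_add₃_le).trans ?_
        have := h3 T hT t
        gcongr
    _ = ε := by ring

end Pool.Agent.V8H35.BJ
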