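import Pool.Agent.TH339.MP.Q3
import Pool.Agent.V8H35.BJ.Flow

/-!
# Functions approximated by Dirichlet polynomials over prime powers in the mean square over all
unit intervals
-/

set_option autoImplicit false

namespace Pool.Agent.V8H35.BJ

open MeasureTheory Filter Topology Complex
open Pool.Agent.TH339.MP (PP ee fr qq TX mem_TX norm_ee continuous_ee ee_add ee_add_left)
open scoped ComplexConjugate ENNReal

/-! ### unit intervals -/

section unit

variable {g : ℝ → ℂ} {η : ℝ}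

lemma lint_nat (H : ∀ t : ℝ, ∫⁻ u in Set.Icc t (t + 1), ENNReal.ofReal (‖g u‖ ^ 2) ≤ ENNReal.ofReal η)
    (t : ℝ) (n : ℕ) : ∫⁻ u in Set.Icc t (t + n), ENNReal.ofReal (‖g u‖ ^ 2) ≤
      n * ENNReal.ofReal η := by
  induction n with
  | zero => simp
  | succ n ih =>
    have h1 : Set.Icc t (t + (n + 1 : ℕ)) ⊆ Set.Icc t (t + n) ∪ Set.Icc (t + n) (t + n + 1) := by
      intro u hu
      push_cast at hu
      rcases le_total u (t + n) with h | h
      · exact Or.inl ⟨hu.1, h⟩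
      · exact Or.inr ⟨h, by linarith [hu.2]⟩
    refine (lintegral_mono_set h1).trans ((lintegral_union_le _ _ _).trans ?_)
    refine (add_le_add ih (H (t + n))).trans (le_of_eq ?_)
    push_cast
    ring

lemma lint_T (H : ∀ t : ℝ, ∫⁻ u in Set.Icc t (t + 1), ENNReal.ofReal (‖g u‖ ^ 2) ≤ ENNReal.ofReal η)
    (hη : 0 ≤ η) (t : ℝ) {T : ℝ} (hT : 1 ≤ T) :
    ∫⁻ u in Set.Icc t (t + T), ENNReal.ofReal (‖g u‖ ^ 2) ≤ ENNReal.ofReal (2 * T * η) := by
  have h1 : Set.Icc t (t + T) ⊆ Set.Icc t (t + (⌈T⌉₊ : ℕ)) :=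
    Set.Icc_subset_Icc_right (by linarith [Nat.le_ceil T])
  refine (lintegral_mono_set h1).trans ((lint_nat H t _).trans ?_)
  rw [← ENNReal.ofReal_natCast, ← ENNReal.ofReal_mul (by positivity)]
  refine ENNReal.ofReal_le_ofReal ?_
  refine mul_le_mul_of_nonneg_right ?_ hη
  have := (Nat.ceil_lt_add_one (by linarith : 0 ≤ T)).le
  linarith

lemma sq_intOn (hg : AEMeasurable g)
    (H : ∀ t : ℝ, ∫⁻ u in Set.Icc t (t + 1), ENNReal.ofReal (‖g u‖ ^ 2) ≤ ENNReal.ofReal η)
    (hη : 0 ≤ η) (t : ℝ) {T : ℝ} (hT : 1 ≤ T) :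
    IntegrableOn (fun u => ‖g u‖ ^ 2) (Set.Icc t (t + T)) := by
  refine ⟨(hg.norm.pow_const 2).aestronglyMeasurable.restrict, ?_⟩
  rw [hasFiniteIntegral_iff_ofReal (Eventually.of_forall fun u => by positivity)]
  exact lt_of_le_of_lt (lint_T H hη t hT) ENNReal.ofReal_lt_top

lemma sq_int_le (hg : AEMeasurable g)
    (H : ∀ t : ℝ, ∫⁻ u in Set.Icc t (t + 1), ENNReal.ofReal (‖g u‖ ^ 2) ≤ ENNReal.ofReal η)
    (hη : 0 ≤ η) (t : ℝ) {T : ℝ} (hT : 1 ≤ T) :
    ∫ u in t..(t + T), ‖g u‖ ^ 2 ≤ 2 * T * η := by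
  rw [intervalIntegral.integral_of_le (by linarith), ← integral_Icc_eq_integral_Ioc]
  have h1 := lint_T H hη t hT
  rw [← ofReal_integral_eq_lintegral_ofReal (sq_intOn hg H hη t hT)
    (Eventually.of_forall fun u => by positivity)] at h1
  exact (ENNReal.ofReal_le_ofReal_iff (by positivity)).1 h1

lemma norm_intOn (hg : AEMeasurable g)
    (H : ∀ t : ℝ, ∫⁻ u in Set.Icc t (t + 1), ENNReal.ofReal (‖g u‖ ^ 2) ≤ ENNReal.ofReal η)
    (hη : 0 ≤ η) (t : ℝ) {T : ℝ} (hT : 1 ≤ T) :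
    IntegrableOn g (Set.Icc t (t + T)) := by
  have h1 := (sq_intOn hg H hη t hT)
  have h2 : IntegrableOn (fun _ : ℝ => (1 : ℝ)) (Set.Icc t (t + T)) :=
    (continuous_const.continuousOn).integrableOn_compact isCompact_Icc
  refine Integrable.mono' (h2.add h1) hg.aestronglyMeasurable.restrict
    (Eventually.of_forall fun u => ?_)
  simp only [Pi.add_apply]
  nlinarith [sq_nonneg (‖g u‖ - 1), norm_nonneg (g u)]

lemma norm_int_le (hg : AEMeasurable g)
    (H : ∀ t : ℝ, ∫⁻ u in Set.Icc t (t + 1), ENNReal.ofReal (‖g u‖ ^ 2) ≤ ENNReal.ofReal η)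
    (hη : 0 < η) (t : ℝ) {T : ℝ} (hT : 1 ≤ T) :
    ∫ u in t..(t + T), ‖g u‖ ≤ T * Real.sqrt (2 * η) := by
  have hle : t ≤ t + T := by linarith
  set s := Real.sqrt (2 * η) with hs
  have hs0 : 0 < s := Real.sqrt_pos.2 (by positivity)
  have hss : s * s = 2 * η := Real.mul_self_sqrt (by positivity)
  have h1 : IntervalIntegrable (fun u => ‖g u‖) volume t (t + T) :=
    (intervalIntegrable_iff_integrableOn_Icc_of_le hle).2 (norm_intOn hg H hη.le t hT).norm
  have h2 : IntervalIntegrable (fun u => ‖g u‖ ^ 2) volume t (t + T) :=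
    (intervalIntegrable_iff_integrableOn_Icc_of_le hle).2 (sq_intOn hg H hη.le t hT)
  have h3 : ∫ u in t..(t + T), ‖g u‖ ≤ ∫ u in t..(t + T), (s / 2 + (1 / (2 * s)) * ‖g u‖ ^ 2) := by
    refine intervalIntegral.integral_mono_on hle h1
      (intervalIntegrable_const.add (h2.const_mul _)) fun u _ => ?_
    have h4 : 0 ≤ (‖g u‖ - s) ^ 2 / (2 * s) := by positivity
    have h5 : (‖g u‖ - s) ^ 2 / (2 * s) = s / 2 + (1 / (2 * s)) * ‖g u‖ ^ 2 - ‖g u‖ := by
      field_simp
      ring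
    linarith
  refine h3.trans ?_
  rw [intervalIntegral.integral_add intervalIntegrable_const (h2.const_mul _),
    intervalIntegral.integral_const, intervalIntegral.integral_const_mul, smul_eq_mul,
    add_sub_cancel_left]
  have h6 := sq_int_le hg H hη.le t hT
  have h7 : 1 / (2 * s) * ∫ u in t..(t + T), ‖g u‖ ^ 2 ≤ 1 / (2 * s) * (2 * T * η) :=
    mul_le_mul_of_nonneg_left h6 (by positivity)
  have h8 : 1 / (2 * s) * (2 * T * η) = T * s / 2 := by
    have : 2 * T * η = T * (s * s) := by rw [hss]; ring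
    rw [this]
    field_simp
  linarith

end unit

/-! ### the polynomials -/

/-- the partial sums -/
noncomputable def PSa (a : PP → ℂ) (X : ℕ) (u : ℝ) : ℂ := ∑ x ∈ TX X, a x * ee (fr x) u

lemma continuous_PSa (a : PP → ℂ) (X : ℕ) : Continuous (PSa a X) := by
  unfold PSa
  exact continuous_finsetSum _ fun x _ => continuous_const.mul (continuous_ee _)

/-- the random partial sums -/
noncomputable def BXa (a : PP → ℂ) (X : ℕ) : C(Om, ℂ) where
  toFun ω := ∑ x ∈ TX X, a x * fourier ((x.2 + 1 : ℕ) : ℤ) (ω x.1)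
  continuous_toFun := continuous_finsetSum _ fun x _ => continuous_const.mul
    ((map_continuous _).comp (continuous_apply x.1))

lemma BXa_apply (a : PP → ℂ) (X : ℕ) (ω : Om) :
    BXa a X ω = ∑ x ∈ TX X, a x * fourier ((x.2 + 1 : ℕ) : ℤ) (ω x.1) := rfl

lemma BXa_fl (a : PP → ℂ) (X : ℕ) (u : ℝ) : BXa a X (fl u) = PSa a X u := by
  rw [BXa_apply]
  unfold PSa
  refine Finset.sum_congr rfl fun x _ => ?_
  rw [fourier_fl, ee, fr]
  congr 3

lemma PSa_sub (a b : PP → ℂ) (X : ℕ) (u : ℝ) :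
    PSa (fun x => a x - b x) X u = PSa a X u - PSa b X u := by
  unfold PSa
  rw [← Finset.sum_sub_distrib]
  exact Finset.sum_congr rfl fun x _ => by ring

/-- `lam` is approximated by the polynomials -/
structure Apx (a : PP → ℂ) (lam : ℝ → ℂ) (η : ℕ → ℝ) : Prop where
  meas : AEMeasurable lam
  pos : ∀ X, 0 < η X
  lim : Tendsto η atTop (𝓝 0)
  bound : ∀ᶠ X in atTop, ∀ t : ℝ,
    ∫⁻ u in Set.Icc t (t + 1), ENNReal.ofReal (‖lam u - PSa a X u‖ ^ 2) ≤ ENNReal.ofReal (η X)

section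

variable {a : PP → ℂ} {lam : ℝ → ℂ} {η : ℕ → ℝ}

lemma Apx.diff_meas (h : Apx a lam η) (X : ℕ) : AEMeasurable fun u => lam u - PSa a X u :=
  h.meas.sub (continuous_PSa a X).aemeasurable

/-- closeness to the polynomials -/
lemma Apx.l1 (h : Apx a lam η) : ∀ᶠ X in atTop, ∀ (t T : ℝ), 1 ≤ T →
    ∫ u in t..(t + T), ‖lam u - PSa a X u‖ ≤ T * Real.sqrt (2 * η X) := by
  filter_upwards [h.bound] with X hX t T hT
  exact norm_int_le (h.diff_meas X) hX (h.pos X) t hT

lemma Apx.l2 (h : Apx a lam η) : ∀ᶠ X in atTop, ∀ (t T : ℝ), 1 ≤ T →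
    ∫ u in t..(t + T), ‖lam u - PSa a X u‖ ^ 2 ≤ 2 * T * η X := by
  filter_upwards [h.bound] with X hX t T hT
  exact sq_int_le (h.diff_meas X) hX (h.pos X).le t hT

lemma ii_of_Icc {f : ℝ → ℝ} (hf : ∀ (t T : ℝ), 1 ≤ T → IntegrableOn f (Set.Icc t (t + T)))
    (a b : ℝ) : IntervalIntegrable f volume a b := by
  rw [intervalIntegrable_iff]
  refine (hf (min a b) (max 1 |b - a|) (le_max_left _ _)).mono_set ?_
  intro x hx
  rw [Set.uIoc, Set.mem_Ioc] at hx
  refine ⟨hx.1.le, hx.2.trans ?_⟩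
  have h1 : |b - a| ≤ max 1 |b - a| := le_max_right _ _
  rcases le_total a b with h | h
  · rw [max_eq_right h, min_eq_left h]
    rw [abs_of_nonneg (by linarith)] at h1 ⊢
    linarith
  · rw [max_eq_left h, min_eq_right h]
    rw [abs_of_nonpos (by linarith)] at h1 ⊢
    linarith

lemma ii_of_IccC {f : ℝ → ℂ} (hf : ∀ (t T : ℝ), 1 ≤ T → IntegrableOn f (Set.Icc t (t + T)))
    (a b : ℝ) : IntervalIntegrable f volume a b := by
  rw [intervalIntegrable_iff]
  refine (hf (min a b) (max 1 |b - a|) (le_max_left _ _)).mono_set ?_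
  intro x hx
  rw [Set.uIoc, Set.mem_Ioc] at hx
  refine ⟨hx.1.le, hx.2.trans ?_⟩
  have h1 : |b - a| ≤ max 1 |b - a| := le_max_right _ _
  rcases le_total a b with h | h
  · rw [max_eq_right h, min_eq_left h]
    rw [abs_of_nonneg (by linarith)] at h1 ⊢
    linarith
  · rw [max_eq_left h, min_eq_right h]
    rw [abs_of_nonpos (by linarith)] at h1 ⊢
    linarith

lemma Apx.ii_diff (h : Apx a lam η) : ∀ᶠ X in atTop, (∀ s t : ℝ,
    IntervalIntegrable (fun u => lam u - PSa a X u) volume s t) ∧ ∀ s t : ℝ,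
    IntervalIntegrable (fun u => ‖lam u - PSa a X u‖ ^ 2) volume s t := by
  filter_upwards [h.bound] with X hX
  exact ⟨ii_of_IccC fun t T hT => norm_intOn (h.diff_meas X) hX (h.pos X).le t hT,
    ii_of_Icc fun t T hT => sq_intOn (h.diff_meas X) hX (h.pos X).le t hT⟩

lemma Apx.ii (h : Apx a lam η) (s t : ℝ) : IntervalIntegrable lam volume s t := by
  obtain ⟨X, hX, -⟩ := h.ii_diff.exists
  have h1 := (hX s t).add ((continuous_PSa a X).intervalIntegrable s t)
  exact h1.congr fun u _ => by simp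

lemma Apx.ii_sq (h : Apx a lam η) (s t : ℝ) :
    IntervalIntegrable (fun u => ‖lam u‖ ^ 2) volume s t := by
  obtain ⟨X, -, hX⟩ := h.ii_diff.exists
  have hc : Continuous fun u => ‖PSa a X u‖ ^ 2 := (continuous_PSa a X).norm.pow 2
  have h1 := ((hX s t).const_mul 2).add ((hc.intervalIntegrable s t).const_mul 2)
  refine h1.mono_fun (h.meas.norm.pow_const 2).aestronglyMeasurable.restrict ?_
  filter_upwards with u
  rw [Real.norm_of_nonneg (by positivity), Real.norm_of_nonneg (by positivity)]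
  have h2 : ‖lam u‖ ≤ ‖lam u - PSa a X u‖ + ‖PSa a X u‖ := by
    calc ‖lam u‖ = ‖(lam u - PSa a X u) + PSa a X u‖ := by congr 1; ring
      _ ≤ _ := norm_add_le _ _
  nlinarith [sq_nonneg (‖lam u - PSa a X u‖ - ‖PSa a X u‖), norm_nonneg (lam u),
    norm_nonneg (lam u - PSa a X u), norm_nonneg (PSa a X u)]

/-- the difference of two approximated functions -/
lemma Apx.sub {b : PP → ℂ} {mu : ℝ → ℂ} {θ : ℕ → ℝ} (h : Apx a lam η) (h' : Apx b mu θ) :
    Apx (fun x => a x - b x) (fun u => lam u - mu u) (fun X => 2 * (η X + θ X)) := by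
  refine ⟨h.meas.sub h'.meas, fun X => by have := h.pos X; have := h'.pos X; positivity, ?_, ?_⟩
  · have := ((h.lim.add h'.lim).const_mul 2)
    simpa using this
  · filter_upwards [h.bound, h'.bound] with X h1 h2 t
    have h3 : ∀ u, ENNReal.ofReal (‖lam u - mu u - PSa (fun x => a x - b x) X u‖ ^ 2) ≤
        2 * ENNReal.ofReal (‖lam u - PSa a X u‖ ^ 2) + 2 * ENNReal.ofReal (‖mu u - PSa b X u‖ ^ 2) := by
      intro u
      rw [show (2 : ℝ≥0∞) = ENNReal.ofReal 2 by simp, ← ENNReal.ofReal_mul (by norm_num),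
        ← ENNReal.ofReal_mul (by norm_num), ← ENNReal.ofReal_add (by positivity) (by positivity)]
      refine ENNReal.ofReal_le_ofReal ?_
      rw [PSa_sub]
      have e : lam u - mu u - (PSa a X u - PSa b X u) =
          (lam u - PSa a X u) - (mu u - PSa b X u) := by ring
      rw [e]
      have h4 := norm_sub_le (lam u - PSa a X u) (mu u - PSa b X u)
      nlinarith [sq_nonneg (‖lam u - PSa a X u‖ - ‖mu u - PSa b X u‖), norm_nonneg
        (lam u - PSa a X u - (mu u - PSa b X u)), norm_nonneg (lam u - PSa a X u),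
        norm_nonneg (mu u - PSa b X u)]
    refine (lintegral_mono h3).trans ?_
    rw [lintegral_add_left' (((((h.diff_meas X).norm.pow_const 2).ennreal_ofReal).const_mul 2).restrict),
      lintegral_const_mul' _ _ (by simp), lintegral_const_mul' _ _ (by simp)]
    rw [show (2 : ℝ≥0∞) = ENNReal.ofReal 2 by simp]
    rw [mul_add, ENNReal.ofReal_add (by have := h.pos X; positivity) (by have := h'.pos X; positivity),
      ENNReal.ofReal_mul (by norm_num), ENNReal.ofReal_mul (by norm_num)]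
    exact add_le_add (mul_le_mul_right (h1 t) _) (mul_le_mul_right (h2 t) _)

end

end Pool.Agent.V8H35.BJ
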