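import Pool.Agent.V8H35.BJ.Par

/-!
# The limiting distribution has no atoms
-/

set_option autoImplicit false

namespace Pool.Agent.V8H35.BJ

open MeasureTheory Filter Topology Complex AddCircle
open Pool.Agent.TH339.MP (PP ee fr qq TX mem_TX)
open scoped ComplexConjugate ENNReal

instance : Nontrivial UnitAddCircle := by
  refine ⟨⟨((1 / 2 : ℝ) : UnitAddCircle), 0, ?_⟩⟩
  intro h
  rw [AddCircle.coe_eq_zero_iff] at h
  obtain ⟨n, hn⟩ := h
  rw [zsmul_eq_mul, mul_one] at hn
  have h1 : (2 * n : ℝ) = 1 := by linarith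
  have h2 : 2 * n = 1 := by exact_mod_cast h1
  omega

instance : NullSingletonClass (haarAddCircle : Measure UnitAddCircle) :=
  Measure.IsAddHaarMeasure.nullSingletonClass _

section

variable {c : ℕ → ℂ} {C ρ : ℝ}

/-- the trigonometric series -/
noncomputable def gs (c : ℕ → ℂ) (x : UnitAddCircle) : ℂ :=
  ∑' k : ℕ, c k * fourier ((k + 1 : ℕ) : ℤ) x

lemma geo_summable (hρ : 0 < ρ) (hρ1 : ρ < 1) (C : ℝ) : Summable fun k : ℕ => C * ρ ^ (k + 1) := by
  have := (summable_geometric_of_lt_one hρ.le hρ1).mul_left (C * ρ)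
  refine this.congr fun k => ?_
  rw [pow_succ]
  ring

lemma norm_term (c : ℕ → ℂ) (k : ℕ) (x : UnitAddCircle) :
    ‖c k * fourier ((k + 1 : ℕ) : ℤ) x‖ = ‖c k‖ := by
  rw [norm_mul, norm_fourier_apply, mul_one]

lemma continuous_gs (hρ : 0 < ρ) (hρ1 : ρ < 1) (hc : ∀ k, ‖c k‖ ≤ C * ρ ^ (k + 1)) :
    Continuous (gs c) := by
  unfold gs
  refine continuous_tsum (fun k => continuous_const.mul (map_continuous _))
    (geo_summable hρ hρ1 C) fun k x => ?_
  rw [norm_term]
  exact hc k

lemma gs_coef (hρ : 0 < ρ) (hρ1 : ρ < 1) (hc : ∀ k, ‖c k‖ ≤ C * ρ ^ (k + 1)) (m : ℕ) :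
    ∫ x, gs c x * fourier (-((m + 1 : ℕ) : ℤ)) x ∂haarAddCircle = c m := by
  have hsum : Summable fun k => ‖c k‖ :=
    Summable.of_nonneg_of_le (fun k => norm_nonneg _) hc (geo_summable hρ hρ1 C)
  have h1 : ∀ x : UnitAddCircle, gs c x * fourier (-((m + 1 : ℕ) : ℤ)) x =
      ∑' k : ℕ, c k * fourier ((k : ℤ) - m) x := by
    intro x
    unfold gs
    rw [← tsum_mul_right]
    refine tsum_congr fun k => ?_
    rw [mul_assoc, ← fourier_add]
    congr 2
    push_cast
    ring
  simp_rw [h1]
  rw [← integral_tsum_of_summable_integral_norm]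
  · simp_rw [integral_const_mul, integral_fourier]
    rw [tsum_eq_single m]
    · simp
    · intro k hk
      rw [if_neg (by omega), mul_zero]
  · intro k
    exact (Continuous.integrable_of_hasCompactSupport (continuous_const.mul (map_continuous _))
      (HasCompactSupport.of_compactSpace _))
  · refine hsum.congr fun k => ?_
    have : ∀ x : UnitAddCircle, ‖c k * fourier ((k : ℤ) - m) x‖ = ‖c k‖ := by
      intro x
      rw [norm_mul, norm_fourier_apply, mul_one]
    simp_rw [this]
    simp

/-- the level sets of the series are null sets -/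
lemma level_null (hρ : 0 < ρ) (hρ1 : ρ < 1) (hc : ∀ k, ‖c k‖ ≤ C * ρ ^ (k + 1)) (hne : ∃ k, c k ≠ 0)
    (w : ℂ) : haarAddCircle {x : UnitAddCircle | gs c x = w} = 0 := by
  -- the analytic function
  set R : ℝ := (1 + 1 / ρ) / 2 with hR
  have hρi : 1 < 1 / ρ := by
    rw [lt_div_iff₀ hρ]
    linarith
  have hR1 : 1 < R := by rw [hR]; linarith
  have hRρ : R * ρ < 1 := by
    have : R < 1 / ρ := by rw [hR]; linarith
    rwa [lt_div_iff₀ hρ] at this
  have hR0 : 0 < R := by linarith
  set h : ℂ → ℂ := fun z => ∑' k : ℕ, c k * z ^ (k + 1) with hh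
  have hC : 0 ≤ C := by
    have := (norm_nonneg _).trans (hc 0)
    rw [zero_add, pow_one] at this
    exact nonneg_of_mul_nonneg_left this hρ
  have hd : DifferentiableOn ℂ h (Metric.ball 0 R) := by
    refine Complex.differentiableOn_tsum_of_summable_norm (u := fun k : ℕ => C * (R * ρ) ^ (k + 1))
      (geo_summable (by positivity) hRρ C) (fun k => by fun_prop) Metric.isOpen_ball
      fun k z hz => ?_
    rw [norm_mul, norm_pow, mul_pow]
    rw [mem_ball_zero_iff] at hz
    calc ‖c k‖ * ‖z‖ ^ (k + 1) ≤ (C * ρ ^ (k + 1)) * R ^ (k + 1) :=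
          mul_le_mul (hc k) (pow_le_pow_left₀ (norm_nonneg _) hz.le _) (by positivity) (by positivity)
      _ = C * (R ^ (k + 1) * ρ ^ (k + 1)) := by ring
  have han : AnalyticOnNhd ℂ h (Metric.ball 0 R) := hd.analyticOnNhd Metric.isOpen_ball
  have hgs : ∀ x : UnitAddCircle, gs c x = h (toCircle x) := by
    intro x
    unfold gs
    rw [hh]
    simp only
    refine tsum_congr fun k => ?_
    rw [fourier_apply, natCast_zsmul, toCircle_nsmul, Circle.coe_pow]
  -- finiteness
  have hfin : {x : UnitAddCircle | gs c x = w}.Finite := by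
    by_contra hinf
    have hinj : Function.Injective fun x : UnitAddCircle => (toCircle x : ℂ) := fun x y hxy =>
      injective_toCircle one_ne_zero (Circle.coe_injective hxy)
    have h1 : ((fun x : UnitAddCircle => (toCircle x : ℂ)) '' {x | gs c x = w}).Infinite :=
      Set.Infinite.image hinj.injOn hinf
    obtain ⟨z₀, hz₀, hacc⟩ := h1.exists_accPt_of_subset_isCompact
      (isCompact_sphere (0 : ℂ) 1) (by
        rintro - ⟨x, -, rfl⟩
        rw [mem_sphere_zero_iff_norm]
        exact Circle.norm_coe _)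
    have hz₀b : z₀ ∈ Metric.ball (0 : ℂ) R := by
      rw [mem_sphere_zero_iff_norm] at hz₀
      rw [mem_ball_zero_iff, hz₀]
      exact hR1
    have hfr : ∃ᶠ z in 𝓝[≠] z₀, h z = w := by
      rw [accPt_iff_frequently_nhdsNE] at hacc
      refine hacc.mono ?_
      rintro - ⟨x, hx, rfl⟩
      simp only
      rw [← hgs]
      exact hx
    have heq := han.eqOn_of_preconnected_of_frequently_eq (g := fun _ => w) analyticOnNhd_const
      (convex_ball _ _).isPreconnected hz₀b hfr
    have hcst : ∀ x : UnitAddCircle, gs c x = w := by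
      intro x
      rw [hgs]
      refine heq ?_
      rw [mem_ball_zero_iff, Circle.norm_coe]
      exact hR1
    obtain ⟨k, hk⟩ := hne
    apply hk
    rw [← gs_coef hρ hρ1 hc k]
    simp_rw [hcst]
    rw [integral_const_mul, integral_fourier, if_neg (by omega), mul_zero]
  exact hfin.measure_zero _

end

/-! ### rotations -/

open Classical in
/-- rotation of the coordinate `p` -/
noncomputable def rot (p : Nat.Primes) (θ : UnitAddCircle) (ω : Om) : Om :=
  fun q => ω q + if q = p then θ else 0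

lemma rot_apply_self (p : Nat.Primes) (θ : UnitAddCircle) (ω : Om) : rot p θ ω p = ω p + θ := by
  unfold rot
  rw [if_pos rfl]

lemma rot_apply_ne {p q : Nat.Primes} (h : q ≠ p) (θ : UnitAddCircle) (ω : Om) :
    rot p θ ω q = ω q := by
  unfold rot
  rw [if_neg h, add_zero]

lemma rot_mp (p : Nat.Primes) (θ : UnitAddCircle) : MeasurePreserving (rot p θ) Pr Pr := by
  classical
  refine ⟨?_, ?_⟩
  · refine measurable_pi_lambda _ fun q => ?_
    unfold rot
    exact (measurable_pi_apply q).add_const _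
  · unfold Pr rot
    rw [Measure.infinitePi_map_pi (μ := fun _ : Nat.Primes => (haarAddCircle : Measure UnitAddCircle))
      (f := fun q x => x + if q = p then θ else 0) (fun q => measurable_id.add_const _)]
    congr 1
    funext q
    exact map_add_right_eq_self _ _

section

variable {a : PP → ℂ} {B : Om → ℂ} {C ρ : ℝ} {p : Nat.Primes}

/-- the part of the partial sum belonging to `p` -/
noncomputable def gX (a : PP → ℂ) (p : Nat.Primes) (X : ℕ) (y : UnitAddCircle) : ℂ :=
  open Classical in ∑ x ∈ TX X with x.1 = p, a x * fourier ((x.2 + 1 : ℕ) : ℤ) y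

lemma RX_rot (a : PP → ℂ) (p : Nat.Primes) (X : ℕ) (θ : UnitAddCircle) (ω : Om) :
    BXa a X (rot p θ ω) - gX a p X (rot p θ ω p) = BXa a X ω - gX a p X (ω p) := by
  classical
  have h1 : ∀ ω : Om, BXa a X ω - gX a p X (ω p) =
      ∑ x ∈ TX X with ¬ x.1 = p, a x * fourier ((x.2 + 1 : ℕ) : ℤ) (ω x.1) := by
    intro ω
    rw [BXa_apply, ← Finset.sum_filter_add_sum_filter_not (TX X) (fun x => x.1 = p)]
    have : ∑ x ∈ TX X with x.1 = p, a x * fourier ((x.2 + 1 : ℕ) : ℤ) (ω x.1) =
        gX a p X (ω p) := by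
      unfold gX
      refine Finset.sum_congr rfl fun x hx => ?_
      rw [(Finset.mem_filter.1 hx).2]
    rw [this]
    ring
  rw [h1, h1]
  refine Finset.sum_congr rfl fun x hx => ?_
  rw [rot_apply_ne (Finset.mem_filter.1 hx).2]

lemma gX_tendsto (hρ : 0 < ρ) (hρ1 : ρ < 1) (hc : ∀ k, ‖a (p, k)‖ ≤ C * ρ ^ (k + 1)) :
    Tendsto (fun X => ∫ ω : Om, ‖gs (fun k => a (p, k)) (ω p) - gX a p X (ω p)‖ ∂Pr) atTop (𝓝 0) := by
  classical
  have hsum : Summable fun k => ‖a (p, k)‖ :=
    Summable.of_nonneg_of_le (fun k => norm_nonneg _) hc (geo_summable hρ hρ1 C)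
  -- the exponents occurring
  have hgX : ∀ X y, gX a p X y = ∑ k ∈ (Finset.range X).filter (fun k => (p, k) ∈ TX X),
      a (p, k) * fourier ((k + 1 : ℕ) : ℤ) y := by
    intro X y
    unfold gX
    refine Finset.sum_bij' (fun x _ => x.2) (fun k _ => (p, k)) ?_ ?_ ?_ ?_ ?_
    · intro x hx
      rw [Finset.mem_filter] at hx
      rw [Finset.mem_filter, Finset.mem_range]
      have hxe : (p, x.2) = x := Prod.ext hx.2.symm rfl
      refine ⟨?_, by rw [hxe]; exact hx.1⟩
      have h1 := (mem_TX _ _).1 hx.1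
      have h2 : x.2 + 1 < qq x := by
        unfold Pool.Agent.TH339.MP.qq
        exact Nat.lt_pow_self x.1.2.one_lt
      omega
    · intro k hk
      rw [Finset.mem_filter] at hk ⊢
      exact ⟨hk.2, rfl⟩
    · intro x hx
      rw [Finset.mem_filter] at hx
      exact Prod.ext hx.2.symm rfl
    · intro k _
      rfl
    · intro x hx
      rw [Finset.mem_filter] at hx
      have hxe : (p, x.2) = x := Prod.ext hx.2.symm rfl
      rw [hxe]
  have hfs : Tendsto (fun X => (Finset.range X).filter (fun k => (p, k) ∈ TX X)) atTop atTop := by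
    refine tendsto_atTop_finset_of_monotone ?_ ?_
    · intro X Y hXY k hk
      rw [Finset.mem_filter, Finset.mem_range, mem_TX] at hk ⊢
      exact ⟨by omega, hk.2.trans hXY⟩
    · intro k
      refine ⟨max (k + 1) (qq (p, k)), ?_⟩
      rw [Finset.mem_filter, Finset.mem_range, mem_TX]
      exact ⟨lt_of_lt_of_le (Nat.lt_succ_self k) (le_max_left _ _), le_max_right _ _⟩
  have hS := hsum.hasSum.comp hfs
  have hS2 : Tendsto (fun X => ∑' k, ‖a (p, k)‖ -
      ∑ k ∈ (Finset.range X).filter (fun k => (p, k) ∈ TX X), ‖a (p, k)‖) atTop (𝓝 0) := by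
    have := hS.const_sub (∑' k, ‖a (p, k)‖)
    rw [sub_self] at this
    exact this
  have hcg := continuous_gs hρ hρ1 hc
  refine squeeze_zero (fun X => integral_nonneg fun ω => norm_nonneg _) (fun X => ?_) hS2
  set F := (Finset.range X).filter (fun k => (p, k) ∈ TX X) with hF
  have hpt : ∀ y : UnitAddCircle, ‖gs (fun k => a (p, k)) y - gX a p X y‖ ≤
      ∑' k, ‖a (p, k)‖ - ∑ k ∈ F, ‖a (p, k)‖ := by
    intro y
    have hs1 : Summable fun k : ℕ => a (p, k) * fourier ((k + 1 : ℕ) : ℤ) y :=
      Summable.of_norm (hsum.congr fun k => (norm_term (fun k => a (p, k)) k y).symm)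
    rw [hgX]
    unfold gs
    rw [← hs1.sum_add_tsum_subtype_compl F, add_sub_cancel_left,
      ← hsum.sum_add_tsum_subtype_compl F, add_sub_cancel_left]
    have hs2 : Summable fun k : {k // k ∉ F} => ‖a (p, (k : ℕ)) * fourier (((k : ℕ) + 1 : ℕ) : ℤ) y‖ := by
      have := hsum.subtype {k | k ∉ F}
      refine this.congr fun k => ?_
      rw [norm_mul, norm_fourier_apply, mul_one]
      rfl
    refine (norm_tsum_le_tsum_norm hs2).trans (le_of_eq ?_)
    refine tsum_congr fun k => ?_
    rw [norm_mul, norm_fourier_apply, mul_one]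
  calc ∫ ω : Om, ‖gs (fun k => a (p, k)) (ω p) - gX a p X (ω p)‖ ∂Pr
      ≤ ∫ _ : Om, (∑' k, ‖a (p, k)‖ - ∑ k ∈ F, ‖a (p, k)‖) ∂Pr := by
        refine integral_mono_of_nonneg (Eventually.of_forall fun ω => norm_nonneg _)
          (integrable_const _) (Eventually.of_forall fun ω => hpt _)
    _ = _ := by simp

lemma integrable_coord {g : UnitAddCircle → ℂ} (hg : Continuous g) (p : Nat.Primes) :
    Integrable (fun ω : Om => g (ω p)) Pr :=
  (BoundedContinuousFunction.mkOfCompact (⟨fun ω : Om => g (ω p),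
    hg.comp (continuous_apply p)⟩ : C(Om, ℂ))).integrable Pr

lemma continuous_gX (a : PP → ℂ) (p : Nat.Primes) (X : ℕ) : Continuous (gX a p X) := by
  classical
  unfold gX
  exact continuous_finsetSum _ fun x _ => continuous_const.mul (map_continuous _)

/-- the remaining part does not depend on the coordinate `p` -/
lemma RV.rot_eq (h : RV a B) (hρ : 0 < ρ) (hρ1 : ρ < 1) (hc : ∀ k, ‖a (p, k)‖ ≤ C * ρ ^ (k + 1))
    (θ : UnitAddCircle) : ∀ᵐ ω ∂Pr, B (rot p θ ω) - gs (fun k => a (p, k)) (ω p + θ) =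
      B ω - gs (fun k => a (p, k)) (ω p) := by
  set g := gs (fun k => a (p, k)) with hg
  have hgc : Continuous g := continuous_gs hρ hρ1 hc
  set R : Om → ℂ := fun ω => B ω - g (ω p) with hR
  set RX : ℕ → Om → ℂ := fun X ω => BXa a X ω - gX a p X (ω p) with hRX
  have hRi : Integrable R Pr := (h.memLp.integrable (by norm_num)).sub (integrable_coord hgc p)
  have hRXi : ∀ X, Integrable (RX X) Pr := fun X =>
    ((BoundedContinuousFunction.mkOfCompact (BXa a X)).integrable Pr).sub
      (integrable_coord (continuous_gX a p X) p)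
  have hlim : Tendsto (fun X => ∫ ω, ‖R ω - RX X ω‖ ∂Pr) atTop (𝓝 0) := by
    have h1 := h.l1.add (gX_tendsto hρ hρ1 hc)
    rw [add_zero] at h1
    refine squeeze_zero (fun X => integral_nonneg fun ω => norm_nonneg _) (fun X => ?_) h1
    have hi1 := (h.int_diff X).norm
    have hi2 : Integrable (fun ω : Om => ‖g (ω p) - gX a p X (ω p)‖) Pr :=
      ((integrable_coord hgc p).sub (integrable_coord (continuous_gX a p X) p)).norm
    rw [← integral_add hi1 hi2]
    refine integral_mono ((hRi.sub (hRXi X)).norm) (hi1.add hi2) fun ω => ?_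
    have : R ω - RX X ω = (B ω - BXa a X ω) - (g (ω p) - gX a p X (ω p)) := by
      simp only [hR, hRX]
      ring
    simp only
    rw [this]
    exact norm_sub_le _ _
  have hmp := rot_mp p θ
  have hRr : Integrable (fun ω => R (rot p θ ω)) Pr := hmp.integrable_comp_of_integrable hRi
  have hz : ∫ ω, ‖R (rot p θ ω) - R ω‖ ∂Pr = 0 := by
    refine le_antisymm ?_ (integral_nonneg fun ω => norm_nonneg _)
    have h2 : Tendsto (fun X => 2 * ∫ ω, ‖R ω - RX X ω‖ ∂Pr) atTop (𝓝 0) := by
      have := hlim.const_mul 2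
      simpa using this
    refine ge_of_tendsto' h2 fun X => ?_
    have hi : Integrable (fun ω => ‖R ω - RX X ω‖) Pr := (hRi.sub (hRXi X)).norm
    have hi' : Integrable (fun ω => ‖R (rot p θ ω) - RX X (rot p θ ω)‖) Pr :=
      hmp.integrable_comp_of_integrable hi
    have e1 : ∫ ω, ‖R (rot p θ ω) - RX X (rot p θ ω)‖ ∂Pr = ∫ ω, ‖R ω - RX X ω‖ ∂Pr := by
      have := integral_map (μ := Pr) hmp.measurable.aemeasurable
        (f := fun ω => ‖R ω - RX X ω‖) (by rw [hmp.map_eq]; exact hi.aestronglyMeasurable)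
      rw [hmp.map_eq] at this
      exact this.symm
    calc ∫ ω, ‖R (rot p θ ω) - R ω‖ ∂Pr
        ≤ ∫ ω, (‖R (rot p θ ω) - RX X (rot p θ ω)‖ + ‖R ω - RX X ω‖) ∂Pr := by
          refine integral_mono (hRr.sub hRi).norm (hi'.add hi) fun ω => ?_
          have h3 : R (rot p θ ω) - R ω = (R (rot p θ ω) - RX X (rot p θ ω)) - (R ω - RX X ω) := by
            have : RX X (rot p θ ω) = RX X ω := RX_rot a p X θ ω
            rw [this]
            ring
          simp only
          rw [h3]
          exact norm_sub_le _ _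
      _ = 2 * ∫ ω, ‖R ω - RX X ω‖ ∂Pr := by
          rw [integral_add hi' hi, e1]
          ring
  have h3 := (integral_eq_zero_iff_of_nonneg (fun ω => norm_nonneg _) (hRr.sub hRi).norm).1 hz
  filter_upwards [h3] with ω hω
  have h4 : R (rot p θ ω) - R ω = 0 := norm_eq_zero.1 hω
  have h5 : R (rot p θ ω) = R ω := sub_eq_zero.1 h4
  rw [hR] at h5
  simp only [rot_apply_self] at h5
  exact h5

/-- **No atoms.** -/
theorem RV.atomless (h : RV a B) (hρ : 0 < ρ) (hρ1 : ρ < 1)
    (hc : ∀ k, ‖a (p, k)‖ ≤ C * ρ ^ (k + 1)) (hne : ∃ k, a (p, k) ≠ 0) (w : ℂ) :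
    Pr {ω | B ω = w} = 0 := by
  set g := gs (fun k => a (p, k)) with hg
  have hgc : Continuous g := continuous_gs hρ hρ1 hc
  set R : Om → ℂ := fun ω => B ω - g (ω p) with hR
  have hRm : Measurable R := h.meas.sub (hgc.measurable.comp (measurable_pi_apply p))
  set S : Set (UnitAddCircle × Om) := {x | g (x.2 p + x.1) + R x.2 = w} with hS
  have hSm : MeasurableSet S := by
    refine measurableSet_eq_fun ?_ measurable_const
    refine Measurable.add ?_ (hRm.comp measurable_snd)
    exact hgc.measurable.comp (((measurable_pi_apply p).comp measurable_snd).add measurable_fst)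
  have h1 : (haarAddCircle : Measure UnitAddCircle).prod Pr S = 0 := by
    rw [Measure.prod_apply_symm hSm]
    rw [lintegral_eq_zero_iff (measurable_measure_prodMk_right hSm)]
    refine Eventually.of_forall fun ω => ?_
    simp only [Pi.zero_apply]
    have h2 : (fun x : UnitAddCircle => (x, ω)) ⁻¹' S =
        (fun x => x + ω p) ⁻¹' {x | g x = w - R ω} := by
      ext x
      simp only [hS, Set.mem_preimage, Set.mem_ofPred_eq]
      rw [add_comm x (ω p)]
      constructor
      · intro h3
        rw [← h3]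
        ring
      · intro h3
        rw [h3]
        ring
    rw [h2, measure_preimage_add_right]
    exact level_null hρ hρ1 hc hne _
  have h2 := Measure.ae_ae_of_ae_prod (μ := (haarAddCircle : Measure UnitAddCircle)) (ν := Pr)
    (p := fun x => x ∉ S) (by rw [ae_iff]; simpa using h1)
  obtain ⟨θ, hθ⟩ := h2.exists
  have h3 : Pr {ω | B (rot p θ ω) = w} = 0 := by
    rw [← nonpos_iff_eq_zero]
    have h4 : ∀ᵐ ω ∂Pr, B (rot p θ ω) ≠ w := by
      filter_upwards [hθ, h.rot_eq hρ hρ1 hc θ] with ω h5 h6 h7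
      apply h5
      change g (ω p + θ) + R ω = w
      rw [hR]
      simp only
      rw [← h6, h7]
      ring
    rw [ae_iff] at h4
    simp only [ne_eq, not_not] at h4
    exact h4.le
  have h4 := (rot_mp p θ).measure_preimage (s := {ω | B ω = w})
    (measurableSet_eq_fun h.meas measurable_const).nullMeasurableSet
  rw [← h4]
  exact h3

end

end Pool.Agent.V8H35.BJ
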