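import Pool.Agent.V8H35.BJ.Par
import Pool.Agent.TH339.MP.P10

/-!
# The boundary function of the logarithm of an Euler product; moments of small order
-/

set_option autoImplicit false

namespace Pool.Agent.V8H35.BJ

open MeasureTheory Filter Topology Complex
open Pool.Agent.TH339.MP (PP ee fr wt wt_nonneg qq TX FF bl ap PS bl_angle M_nonneg hardy_lint
  continuous_FF)
open Pool.Agent.W350.Edge (divSet)
open scoped ComplexConjugate ENNReal

section

variable {b : PP → ℂ} {M : ℝ}

/-- the coefficients on the edge -/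
noncomputable def ed (b : PP → ℂ) (x : PP) : ℂ := b x * (wt 1 x : ℂ)

/-- the boundary function is approximated by the polynomials -/
theorem apx_bl (hb : ∀ x, ‖b x‖ ≤ M / (x.2 + 1 : ℕ)) :
    Apx (ed b) (bl b) fun X => (64800 * M ^ 2 + 1) / Real.log (X + 3) * 2 := by
  have hlog : ∀ X : ℕ, 0 < Real.log ((X : ℝ) + 3) := fun X =>
    Real.log_pos (by have : (0 : ℝ) ≤ X := Nat.cast_nonneg X; linarith)
  refine ⟨(Pool.Agent.TH339.MP.boundary hb).1, fun X => ?_, ?_, ?_⟩
  · have := hlog X
    positivity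
  · have h1 : Tendsto (fun X : ℕ => Real.log ((X : ℝ) + 3)) atTop atTop :=
      Real.tendsto_log_atTop.comp (tendsto_atTop_add_const_right _ _ tendsto_natCast_atTop_atTop)
    have h2 := ((tendsto_inv_atTop_zero.comp h1).const_mul ((64800 * M ^ 2 + 1))).mul_const 2
    simp only [mul_zero, zero_mul] at h2
    refine h2.congr fun X => ?_
    simp only [Function.comp_apply]
    rw [div_eq_mul_inv]
  · filter_upwards [eventually_ge_atTop 3] with X hX t
    have h1 := (Pool.Agent.TH339.MP.boundary hb).2.2 X (by omega) t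
    refine h1.trans (ENNReal.ofReal_le_ofReal ?_)
    have hX3 : (3 : ℝ) ≤ X := by exact_mod_cast hX
    have hl : 0 < Real.log X := Real.log_pos (by linarith)
    have h2 : Real.log ((X : ℝ) + 3) ≤ 2 * Real.log X := by
      rw [← Real.log_rpow (by linarith), Real.rpow_two]
      refine Real.log_le_log (by linarith) ?_
      nlinarith
    rw [div_mul_eq_mul_div, div_le_div_iff₀ hl (hlog X)]
    nlinarith [sq_nonneg M, hlog X]

/-- the radial limits -/
lemma radial (hb : ∀ x, ‖b x‖ ≤ M / (x.2 + 1 : ℕ)) {τ : ℝ} (hτ : τ ∉ divSet (ap b)) :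
    Tendsto (fun n : ℕ => FF b (((1 + 1 / ((n : ℝ) + 1) : ℝ) : ℂ) + τ * I)) atTop (𝓝 (bl b τ)) := by
  have h1 := bl_angle hb hτ 1
  have h2 : Tendsto (fun n : ℕ => ((1 / ((n : ℝ) + 1) : ℝ) : ℂ)) atTop
      (𝓝[{z : ℂ | 0 < z.re ∧ ‖z‖ ≤ 1 * z.re}] 0) := by
    rw [tendsto_nhdsWithin_iff]
    constructor
    · have := (Complex.continuous_ofReal.tendsto 0).comp
        (tendsto_one_div_add_atTop_nhds_zero_nat (𝕜 := ℝ))
      rw [Complex.ofReal_zero] at this
      exact this
    · filter_upwards with n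
      have h3 : (0 : ℝ) < 1 / ((n : ℝ) + 1) := by positivity
      refine ⟨?_, ?_⟩
      · rw [Complex.ofReal_re]
        exact h3
      · rw [Complex.ofReal_re, Complex.norm_real, Real.norm_of_nonneg h3.le, one_mul]
  refine (h1.comp h2).congr fun n => ?_
  simp only [Function.comp_apply]
  congr 1
  push_cast
  ring

/-- **Uniform bounds for the moments of small order.** -/
theorem hardy_bl (hb : ∀ x, ‖b x‖ ≤ M / (x.2 + 1 : ℕ)) {κ : ℝ} (hκ : |κ| * M < 1) (t : ℝ) :
    ∫⁻ u in Set.Icc t (t + 1), ENNReal.ofReal (Real.exp (κ * (bl b u).re)) ≤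
      ENNReal.ofReal (36 / (1 - |κ| * M)) := by
  have hae : ∀ᵐ τ : ℝ, τ ∉ divSet (ap b) := Pool.Agent.TH339.MP.ae_notMem hb
  have hexp : ∀ z : ℂ, ‖Complex.exp z‖ ^ κ = Real.exp (κ * z.re) := by
    intro z
    rw [Complex.norm_exp, ← Real.exp_mul, mul_comm]
  have h1 : ∫⁻ u in Set.Icc t (t + 1), ENNReal.ofReal (Real.exp (κ * (bl b u).re)) ≤
      ∫⁻ u in Set.Icc t (t + 1), liminf (fun n : ℕ =>
        ENNReal.ofReal (‖Complex.exp (FF b (((1 + 1 / ((n : ℝ) + 1) : ℝ) : ℂ) + u * I))‖ ^ κ))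
        atTop := by
    refine lintegral_mono_ae ?_
    filter_upwards [ae_restrict_of_ae hae] with u hu
    have h2 : Tendsto (fun n : ℕ =>
        ENNReal.ofReal (‖Complex.exp (FF b (((1 + 1 / ((n : ℝ) + 1) : ℝ) : ℂ) + u * I))‖ ^ κ)) atTop
        (𝓝 (ENNReal.ofReal (Real.exp (κ * (bl b u).re)))) := by
      refine (ENNReal.continuous_ofReal.tendsto _).comp ?_
      simp_rw [hexp]
      refine (Real.continuous_exp.tendsto _).comp ?_
      exact ((Complex.continuous_re.tendsto _).comp (radial hb hu)).const_mul κ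
    rw [h2.liminf_eq]
  have hσ : ∀ n : ℕ, 1 < 1 + 1 / ((n : ℝ) + 1) := fun n => by
    have : (0 : ℝ) < 1 / ((n : ℝ) + 1) := by positivity
    linarith
  refine h1.trans ((lintegral_liminf_le fun n => ?_).trans ?_)
  · exact (ENNReal.continuous_ofReal.comp
      (Pool.Agent.TH339.MP.continuous_norm_exp hb (hσ n) κ)).measurable
  · refine liminf_le_of_frequently_le' (Eventually.frequently ?_)
    filter_upwards with n
    exact hardy_lint b hb (hσ n) t hκ

/-! ### passing to the limit -/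

lemma sub_min_le {x N δ : ℝ} (hx : 0 < x) (hN : 0 < N) (hδ : 0 < δ) :
    x - min x N ≤ N ^ (-δ) * x ^ (1 + δ) := by
  rcases le_total x N with h | h
  · rw [min_eq_left h, sub_self]
    positivity
  · rw [min_eq_right h]
    have h1 : 1 ≤ N ^ (-δ) * x ^ δ := by
      rw [Real.rpow_neg hN.le, ← div_eq_inv_mul, ← Real.div_rpow hx.le hN.le]
      exact Real.one_le_rpow ((one_le_div hN).2 h) hδ.le
    calc x - N ≤ x * 1 := by linarith
      _ ≤ x * (N ^ (-δ) * x ^ δ) := mul_le_mul_of_nonneg_left h1 hx.le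
      _ = N ^ (-δ) * x ^ (1 + δ) := by
          rw [Real.rpow_add hx, Real.rpow_one]
          ring

/-- from a bound for all truncations -/
lemma lint_of_min {α : Type*} [MeasurableSpace α] {μ : Measure α} {g : α → ℝ}
    (hg : AEMeasurable g μ) (h0 : ∀ ω, 0 ≤ g ω) {C : ℝ≥0∞}
    (h : ∀ N : ℕ, ∫⁻ ω, ENNReal.ofReal (min (g ω) N) ∂μ ≤ C) :
    ∫⁻ ω, ENNReal.ofReal (g ω) ∂μ ≤ C := by
  have h1 : ∫⁻ ω, ENNReal.ofReal (g ω) ∂μ ≤
      ∫⁻ ω, liminf (fun N : ℕ => ENNReal.ofReal (min (g ω) N)) atTop ∂μ := by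
    refine lintegral_mono fun ω => ?_
    have h2 : Tendsto (fun N : ℕ => ENNReal.ofReal (min (g ω) N)) atTop
        (𝓝 (ENNReal.ofReal (g ω))) := by
      refine tendsto_const_nhds.congr' ?_
      filter_upwards [eventually_ge_atTop ⌈g ω⌉₊] with N hN
      rw [min_eq_left ((Nat.le_ceil _).trans (by exact_mod_cast hN))]
    rw [h2.liminf_eq]
  refine h1.trans ((lintegral_liminf_le' fun N => ?_).trans ?_)
  · exact (hg.min aemeasurable_const).ennreal_ofReal
  · exact liminf_le_of_frequently_le' (Eventually.frequently (Eventually.of_forall h))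

/-- **Moments of small order.** -/
theorem moments (hb : ∀ x, ‖b x‖ ≤ M / (x.2 + 1 : ℕ)) {B : Om → ℂ} (hB : RV (ed b) B) {κ : ℝ}
    (hκ : |κ| * M < 1) : Integrable (fun ω => Real.exp (κ * (B ω).re)) Pr ∧
    Mean (fun u => ((Real.exp (κ * (bl b u).re) : ℝ) : ℂ))
      ((∫ ω, Real.exp (κ * (B ω).re) ∂Pr : ℝ) : ℂ) := by
  have hM := M_nonneg hb
  have hapx := apx_bl hb
  -- a slightly larger exponent
  obtain ⟨δ, hδ, hδκ⟩ : ∃ δ : ℝ, 0 < δ ∧ |(1 + δ) * κ| * M < 1 := by
    set m := |κ| * M with hm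
    have hm0 : 0 ≤ m := mul_nonneg (abs_nonneg _) hM
    refine ⟨(1 - m) / 2, by linarith, ?_⟩
    rw [abs_mul, abs_of_pos (by linarith : (0 : ℝ) < 1 + (1 - m) / 2), mul_assoc, ← hm]
    nlinarith
  set κ' : ℝ := (1 + δ) * κ with hκ'
  set C : ℝ := 36 / (1 - |κ'| * M) with hC
  have hC0 : 0 < C := by
    rw [hC]
    apply div_pos (by norm_num)
    linarith
  have hpow : ∀ x : ℝ, Real.exp (κ * x) ^ (1 + δ) = Real.exp (κ' * x) := by
    intro x
    rw [← Real.exp_mul, hκ']
    congr 1
    ring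
  -- the means of the larger moment
  have hmeas : ∀ k : ℝ, AEMeasurable fun u => Real.exp (k * (bl b u).re) := fun k =>
    Real.measurable_exp.comp_aemeasurable
      ((Complex.measurable_re.comp_aemeasurable hapx.meas).const_mul k)
  have hL : ∀ t : ℝ, ∀ T : ℝ, 1 ≤ T →
      ∫⁻ u in Set.Icc t (t + T), ENNReal.ofReal (Real.exp (κ' * (bl b u).re)) ≤
        ENNReal.ofReal (2 * T * C) := by
    intro t T hT
    have e : ∀ u, Real.exp (κ' * (bl b u).re) =
        ‖((Real.exp (κ' / 2 * (bl b u).re) : ℝ) : ℂ)‖ ^ 2 := by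
      intro u
      rw [Complex.norm_real, Real.norm_of_nonneg (Real.exp_pos _).le, ← Real.exp_nat_mul]
      congr 1
      push_cast
      ring
    simp_rw [e]
    refine lint_T (fun t => ?_) hC0.le t hT
    simp_rw [← e]
    exact hardy_bl hb hδκ t
  have hI : ∀ t T : ℝ, 1 ≤ T →
      IntegrableOn (fun u => Real.exp (κ' * (bl b u).re)) (Set.Icc t (t + T)) := by
    intro t T hT
    refine ⟨(hmeas κ').aestronglyMeasurable.restrict, ?_⟩
    rw [hasFiniteIntegral_iff_ofReal (Eventually.of_forall fun u => (Real.exp_pos _).le)]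
    exact lt_of_le_of_lt (hL t T hT) ENNReal.ofReal_lt_top
  have hI2 : ∀ t T : ℝ, 1 ≤ T → ∫ u in t..(t + T), Real.exp (κ' * (bl b u).re) ≤ 2 * T * C := by
    intro t T hT
    rw [intervalIntegral.integral_of_le (by linarith), ← integral_Icc_eq_integral_Ioc]
    have h1 := hL t T hT
    rw [← ofReal_integral_eq_lintegral_ofReal (hI t T hT)
      (Eventually.of_forall fun u => (Real.exp_pos _).le)] at h1
    exact (ENNReal.ofReal_le_ofReal_iff (by positivity)).1 h1
  -- truncations
  have hlaw : ∀ (k N : ℝ), 0 ≤ N → Mean (fun u => ((min (Real.exp (k * (bl b u).re)) N : ℝ) : ℂ))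
      ((∫ ω, min (Real.exp (k * (B ω).re)) N ∂Pr : ℝ) : ℂ) := by
    intro k N hN
    exact law_cont (r := 1) (a := fun _ => ed b) (lam := fun _ => bl b) (B := fun _ => B)
      (fun _ => hapx) (fun _ => hB) (Φ := fun x => min (Real.exp (k * (x 0).re)) N) (C := N)
      (fun x => by
        rw [abs_of_nonneg (le_min (Real.exp_pos _).le hN)]
        exact min_le_right _ _)
      (by fun_prop)
  have hBm : ∀ k : ℝ, Measurable fun ω => Real.exp (k * (B ω).re) := fun k =>
    Real.measurable_exp.comp ((Complex.measurable_re.comp hB.meas).const_mul k)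
  have hiimin : ∀ (k N : ℝ), 0 ≤ N → ∀ s t : ℝ, IntervalIntegrable
      (fun u => min (Real.exp (k * (bl b u).re)) N) volume s t := by
    intro k N hN s t
    have h1 : IntervalIntegrable (fun _ : ℝ => N) volume s t := intervalIntegrable_const
    refine h1.mono_fun ((hmeas k).min aemeasurable_const).aestronglyMeasurable.restrict
      (Eventually.of_forall fun u => ?_)
    change ‖min (Real.exp (k * (bl b u).re)) N‖ ≤ ‖N‖
    rw [Real.norm_of_nonneg (le_min (Real.exp_pos _).le hN), Real.norm_of_nonneg hN]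
    exact min_le_right _ _
  have hintmin : ∀ (k N : ℝ), 0 ≤ N → Integrable (fun ω => min (Real.exp (k * (B ω).re)) N) Pr := by
    intro k N hN
    refine Integrable.of_bound (C := N) ((hBm k).min measurable_const).aestronglyMeasurable
      (Eventually.of_forall fun ω => ?_)
    rw [Real.norm_of_nonneg (le_min (Real.exp_pos _).le hN)]
    exact min_le_right _ _
  have hrv : ∫⁻ ω, ENNReal.ofReal (Real.exp (κ' * (B ω).re)) ∂Pr ≤ ENNReal.ofReal (2 * C) := by
    refine lint_of_min (hBm κ').aemeasurable (fun ω => (Real.exp_pos _).le) fun N => ?_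
    rw [← ofReal_integral_eq_lintegral_ofReal (hintmin κ' N (Nat.cast_nonneg N))
      (Eventually.of_forall fun ω => le_min (Real.exp_pos _).le (Nat.cast_nonneg N))]
    refine ENNReal.ofReal_le_ofReal ?_
    have h1 := (hlaw κ' N (Nat.cast_nonneg N)).re_le (C := 2 * C) ?_
    · rwa [Complex.ofReal_re] at h1
    intro t T hT
    have hT0 : 0 < T := by linarith
    rw [av_ofReal, Complex.ofReal_re, inv_mul_le_iff₀ hT0]
    calc ∫ u in t..(t + T), min (Real.exp (κ' * (bl b u).re)) N
        ≤ ∫ u in t..(t + T), Real.exp (κ' * (bl b u).re) := by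
          refine intervalIntegral.integral_mono_on (by linarith)
            (hiimin κ' N (Nat.cast_nonneg N) _ _)
            ((intervalIntegrable_iff_integrableOn_Icc_of_le (by linarith)).2 (hI t T hT))
            fun u _ => min_le_left _ _
      _ ≤ 2 * T * C := hI2 t T hT
      _ = T * (2 * C) := by ring
  have hrvi : Integrable (fun ω => Real.exp (κ' * (B ω).re)) Pr := by
    refine ⟨(hBm κ').aestronglyMeasurable, ?_⟩
    rw [hasFiniteIntegral_iff_ofReal (Eventually.of_forall fun ω => (Real.exp_pos _).le)]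
    exact lt_of_le_of_lt hrv ENNReal.ofReal_lt_top
  have hrvC : ∫ ω, Real.exp (κ' * (B ω).re) ∂Pr ≤ 2 * C := by
    rw [← ofReal_integral_eq_lintegral_ofReal hrvi
      (Eventually.of_forall fun ω => (Real.exp_pos _).le)] at hrv
    exact (ENNReal.ofReal_le_ofReal_iff (by positivity)).1 hrv
  have hone : ∀ x : ℝ, 0 < x → x ≤ 1 + x ^ (1 + δ) := by
    intro x hx
    have := sub_min_le hx one_pos hδ
    rw [Real.one_rpow, one_mul] at this
    have h2 : min x 1 ≤ 1 := min_le_right _ _
    linarith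
  have hrvκ : Integrable (fun ω => Real.exp (κ * (B ω).re)) Pr := by
    refine Integrable.mono' ((integrable_const (1 : ℝ)).add hrvi) (hBm κ).aestronglyMeasurable
      (Eventually.of_forall fun ω => ?_)
    rw [Real.norm_of_nonneg (Real.exp_pos _).le, Pi.add_apply, ← hpow]
    exact hone _ (Real.exp_pos _)
  have hiκ' : ∀ t T : ℝ, 1 ≤ T → IntervalIntegrable (fun u => Real.exp (κ' * (bl b u).re))
      volume t (t + T) := fun t T hT =>
    (intervalIntegrable_iff_integrableOn_Icc_of_le (by linarith)).2 (hI t T hT)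
  have hiκ : ∀ t T : ℝ, 1 ≤ T → IntervalIntegrable (fun u => Real.exp (κ * (bl b u).re))
      volume t (t + T) := by
    intro t T hT
    have h1 : IntervalIntegrable (fun u => 1 + Real.exp (κ' * (bl b u).re)) volume t (t + T) :=
      intervalIntegrable_const.add (hiκ' t T hT)
    refine h1.mono_fun (hmeas κ).aestronglyMeasurable.restrict (Eventually.of_forall fun u => ?_)
    change ‖Real.exp (κ * (bl b u).re)‖ ≤ ‖1 + Real.exp (κ' * (bl b u).re)‖
    rw [Real.norm_of_nonneg (Real.exp_pos _).le, Real.norm_of_nonneg (by positivity), ← hpow]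
    exact hone _ (Real.exp_pos _)
  refine ⟨hrvκ, Mean.of_approx fun ε hε => ?_⟩
  obtain ⟨N, hN0, hN⟩ : ∃ N : ℝ, 0 < N ∧ N ^ (-δ) * (2 * C) ≤ ε := by
    have h1 : Tendsto (fun N : ℝ => N ^ (-δ) * (2 * C)) atTop (𝓝 0) := by
      have := (tendsto_rpow_neg_atTop hδ).mul_const (2 * C)
      rwa [zero_mul] at this
    obtain ⟨N, h2, h3⟩ := ((eventually_gt_atTop 0).and (h1.eventually_lt_const hε)).exists
    exact ⟨N, h2, h3.le⟩
  refine ⟨_, _, hlaw κ N hN0.le, ?_, fun t T hT => ?_⟩
  · rw [← Complex.ofReal_sub, Complex.norm_real, norm_sub_rev, Real.norm_eq_abs,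
      ← integral_sub hrvκ (hintmin κ N hN0.le), abs_of_nonneg (integral_nonneg fun ω =>
        sub_nonneg.2 (min_le_left _ _))]
    calc ∫ ω, (Real.exp (κ * (B ω).re) - min (Real.exp (κ * (B ω).re)) N) ∂Pr
        ≤ ∫ ω, N ^ (-δ) * Real.exp (κ' * (B ω).re) ∂Pr := by
          refine integral_mono (hrvκ.sub (hintmin κ N hN0.le)) (hrvi.const_mul _) fun ω => ?_
          simp only
          rw [← hpow]
          exact sub_min_le (Real.exp_pos _) hN0 hδ
      _ = N ^ (-δ) * ∫ ω, Real.exp (κ' * (B ω).re) ∂Pr := integral_const_mul _ _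
      _ ≤ N ^ (-δ) * (2 * C) := mul_le_mul_of_nonneg_left hrvC (by positivity)
      _ ≤ ε := hN
  · have hT0 : 0 < T := by linarith
    rw [av_ofReal, av_ofReal, ← Complex.ofReal_sub, Complex.norm_real, Real.norm_eq_abs, ← mul_sub,
      ← intervalIntegral.integral_sub (hiκ t T hT) (hiimin κ N hN0.le _ _)]
    have hnn : 0 ≤ ∫ u in t..(t + T), (Real.exp (κ * (bl b u).re) -
        min (Real.exp (κ * (bl b u).re)) N) :=
      intervalIntegral.integral_nonneg (by linarith) fun u _ => sub_nonneg.2 (min_le_left _ _)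
    rw [abs_of_nonneg (by positivity), inv_mul_le_iff₀ hT0]
    calc ∫ u in t..(t + T), (Real.exp (κ * (bl b u).re) - min (Real.exp (κ * (bl b u).re)) N)
        ≤ ∫ u in t..(t + T), N ^ (-δ) * Real.exp (κ' * (bl b u).re) := by
          refine intervalIntegral.integral_mono_on (by linarith)
            ((hiκ t T hT).sub (hiimin κ N hN0.le _ _)) ((hiκ' t T hT).const_mul _) fun u _ => ?_
          rw [← hpow]
          exact sub_min_le (Real.exp_pos _) hN0 hδ
      _ = N ^ (-δ) * ∫ u in t..(t + T), Real.exp (κ' * (bl b u).re) :=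
          intervalIntegral.integral_const_mul _ _
      _ ≤ N ^ (-δ) * (2 * T * C) := mul_le_mul_of_nonneg_left (hI2 t T hT) (by positivity)
      _ = T * (N ^ (-δ) * (2 * C)) := by ring
      _ ≤ T * ε := mul_le_mul_of_nonneg_left hN hT0.le

end

end Pool.Agent.V8H35.BJ
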