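import Pool.Agent.V8H35.BJ.Atom
import Pool.Agent.V8H35.BJ.Mom

/-!
# Euler products with bounded local roots: assembly
-/

set_option autoImplicit false

namespace Pool.Agent.V8H35.BJ

open MeasureTheory Filter Topology Complex
open Pool.Agent.TH339.MP (PP ee fr wt wt_nonneg qq TX mem_TX FF bl ap PS bl_angle M_nonneg tm prime_pos
  summable_tm qq_injective two_le_qq fr_eq)
open Pool.Agent.W350.Edge (divSet)
open scoped ComplexConjugate ENNReal

/-- a set of zero upper Banach density -/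
def Zd (S : Set ℝ) : Prop :=
  ∀ ε : ℝ, 0 < ε → ∃ T₀ : ℝ, 0 < T₀ ∧ ∀ T : ℝ, T₀ ≤ T → ∀ t : ℝ,
    volume (S ∩ Set.Icc t (t + T)) ≤ ENNReal.ofReal (ε * T)

section

variable {r : ℕ} {a : Fin r → PP → ℂ} {lam : Fin r → ℝ → ℂ} {η : Fin r → ℕ → ℝ}
  {B : Fin r → Om → ℂ}

lemma zd_of_closed (h : ∀ j, Apx (a j) (lam j) (η j)) (hB : ∀ j, RV (a j) (B j))
    {F : Set (Fin r → ℂ)} (hF : IsClosed F) (h0 : Pr {ω | (fun j => B j ω) ∈ F} = 0) :
    Zd {u | (fun j => lam j u) ∈ F} := by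
  intro ε hε
  obtain ⟨T₀, hT₀, h1⟩ := law_closed h hB hF hε
  refine ⟨T₀, hT₀, fun T hT t => ?_⟩
  have h2 := h1 T hT t
  have h3 : Pr.real {ω | (fun j => B j ω) ∈ F} = 0 := by
    unfold Measure.real
    rw [h0, ENNReal.toReal_zero]
  rw [h3, zero_add] at h2
  refine le_trans (measure_mono ?_) h2
  rintro u ⟨hu1, hu2⟩
  exact ⟨hu2, hu1⟩

end

lemma null_exp {B : Om → ℂ} (h : ∀ w : ℂ, Pr {ω | B ω = w} = 0) (w : ℂ) :
    Pr {ω | Complex.exp (B ω) = w} = 0 := by
  by_cases hw : w = 0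
  · have : {ω | Complex.exp (B ω) = w} = ∅ := by
      ext ω
      simp [hw, Complex.exp_ne_zero]
    rw [this, measure_empty]
  · have h1 : {ω | Complex.exp (B ω) = w} ⊆
        ⋃ n : ℤ, {ω | B ω = Complex.log w + n * (2 * Real.pi * I)} := by
      intro ω hω
      change Complex.exp (B ω) = w at hω
      rw [← Complex.exp_log hw, Complex.exp_eq_exp_iff_exists_int] at hω
      obtain ⟨n, hn⟩ := hω
      exact Set.mem_iUnion.2 ⟨n, hn⟩
    refine measure_mono_null h1 ?_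
    rw [measure_iUnion_null_iff]
    intro n
    exact h _

/-- the difference of two random variables -/
lemma RV.sub {a a' : PP → ℂ} {B B' : Om → ℂ} (h : RV a B) (h' : RV a' B') :
    RV (fun x => a x - a' x) (fun ω => B ω - B' ω) := by
  refine ⟨h.meas.sub h'.meas, h.memLp.sub h'.memLp, ?_⟩
  have h1 := h.lim.add h'.lim
  rw [add_zero] at h1
  refine tendsto_of_tendsto_of_tendsto_of_le_of_le tendsto_const_nhds h1 (fun X => zero_le)
    fun X => ?_
  have e : (fun ω => B ω - B' ω - BXa (fun x => a x - a' x) X ω) =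
      (fun ω => B ω - BXa a X ω) - fun ω => B' ω - BXa a' X ω := by
    funext ω
    simp only [Pi.sub_apply]
    have : BXa (fun x => a x - a' x) X ω = BXa a X ω - BXa a' X ω := by
      rw [BXa_apply, BXa_apply, BXa_apply, ← Finset.sum_sub_distrib]
      exact Finset.sum_congr rfl fun x _ => by ring
    rw [this]
    ring
  rw [e]
  exact eLpNorm_sub_le (h.int_diff X).aestronglyMeasurable (h'.int_diff X).aestronglyMeasurable
    (by norm_num)

/-! ### geometric decay of the coefficients at one prime -/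

lemma decay {b : PP → ℂ} {M : ℝ} (hb : ∀ x, ‖b x‖ ≤ M / (x.2 + 1 : ℕ)) (p : Nat.Primes) (k : ℕ) :
    ‖ed b (p, k)‖ ≤ M * (1 / 2 : ℝ) ^ (k + 1) := by
  unfold ed
  rw [norm_mul, Complex.norm_real, Real.norm_of_nonneg (wt_nonneg _ _)]
  refine mul_le_mul (Pool.Agent.TH339.MP.norm_b_le hb _) ?_ (wt_nonneg _ _) (M_nonneg hb)
  unfold wt
  exact pow_le_pow_left₀ (Real.rpow_nonneg (prime_pos p).le _)
    (Pool.Agent.TH339.MP.rpow_neg_le_half p (le_refl (1 : ℝ))) _

/-! ### the local roots -/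

section

variable {N : ℕ}

/-- the coefficients of the logarithm of an Euler product with local roots `β` -/
noncomputable def bq (β : Nat.Primes → Fin N → ℂ) (x : PP) : ℂ :=
  (∑ j, β x.1 j ^ (x.2 + 1)) / ((x.2 + 1 : ℕ) : ℂ)

lemma norm_bq {β : Nat.Primes → Fin N → ℂ} (hβ : ∀ p j, ‖β p j‖ ≤ 1) (x : PP) :
    ‖bq β x‖ ≤ (N : ℝ) / (x.2 + 1 : ℕ) := by
  unfold bq
  rw [norm_div, Complex.norm_natCast]
  refine div_le_div_of_nonneg_right ?_ (by positivity)
  refine (norm_sum_le _ _).trans ?_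
  calc ∑ j, ‖β x.1 j ^ (x.2 + 1)‖ ≤ ∑ _j : Fin N, (1 : ℝ) := by
        refine Finset.sum_le_sum fun j _ => ?_
        rw [norm_pow]
        exact pow_le_one₀ (norm_nonneg _) (hβ _ _)
    _ = N := by simp

lemma norm_pz_lt (p : Nat.Primes) {s : ℂ} (hs : 1 < s.re) : ‖((p : ℕ) : ℂ) ^ (-s)‖ < 1 := by
  have h1 : ((p : ℕ) : ℝ) ^ (-s.re) ≤ 1 / 2 :=
    Pool.Agent.TH339.MP.rpow_neg_le_half p (by linarith)
  rw [norm_natCast_cpow_of_pos p.2.pos, neg_re]
  linarith

/-- the Euler product -/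
theorem euler {β : Nat.Primes → Fin N → ℂ} (hβ : ∀ p j, ‖β p j‖ ≤ 1) {s : ℂ} (hs : 1 < s.re) :
    HasProd (fun p : Nat.Primes => ∏ j, (1 - β p j * ((p : ℕ) : ℂ) ^ (-s))⁻¹)
      (Complex.exp (FF (bq β) s)) := by
  have h0 := summable_tm (norm_bq hβ) hs
  have hz : ∀ (p : Nat.Primes) (j : Fin N), ‖β p j * ((p : ℕ) : ℂ) ^ (-s)‖ < 1 := by
    intro p j
    rw [norm_mul]
    calc _ ≤ 1 * ‖((p : ℕ) : ℂ) ^ (-s)‖ := mul_le_mul_of_nonneg_right (hβ p j) (norm_nonneg _)
      _ < 1 := by rw [one_mul]; exact norm_pz_lt p hs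
  have h1 : ∀ p : Nat.Primes, HasSum (fun k => tm (bq β) s (p, k))
      (∑ j, -Complex.log (1 - β p j * ((p : ℕ) : ℂ) ^ (-s))) := by
    intro p
    have h2 : ∀ j ∈ (Finset.univ : Finset (Fin N)),
        HasSum (fun k : ℕ => (β p j * ((p : ℕ) : ℂ) ^ (-s)) ^ (k + 1) / ((k + 1 : ℕ) : ℂ))
        (-Complex.log (1 - β p j * ((p : ℕ) : ℂ) ^ (-s))) := by
      intro j _
      have h3 := Complex.hasSum_taylorSeries_neg_log (hz p j)
      rw [← hasSum_nat_add_iff' 1] at h3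
      simpa using h3
    refine (hasSum_sum h2).congr_fun fun k => ?_
    unfold tm bq
    simp only
    rw [div_mul_eq_mul_div, Finset.sum_mul, Finset.sum_div]
    refine Finset.sum_congr rfl fun j _ => ?_
    rw [mul_pow]
  have h2 : HasSum (fun p : Nat.Primes => ∑ j, -Complex.log (1 - β p j * ((p : ℕ) : ℂ) ^ (-s)))
      (FF (bq β) s) := h0.hasSum.prod_fiberwise h1
  have h3 := h2.cexp
  refine h3.congr_fun fun p => ?_
  simp only [Function.comp_apply]
  rw [Complex.exp_sum]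
  refine Finset.prod_congr rfl fun j _ => ?_
  rw [Complex.exp_neg, Complex.exp_log]
  intro h4
  have h5 := hz p j
  have h6 : β p j * ((p : ℕ) : ℂ) ^ (-s) = 1 := by linear_combination -h4
  rw [h6, norm_one] at h5
  exact lt_irrefl _ h5

end

end Pool.Agent.V8H35.BJ
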