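import Pool.Agent.V8H35.BJ.Apx

/-!
# The limiting distribution
-/

set_option autoImplicit false

namespace Pool.Agent.V8H35.BJ

open MeasureTheory Filter Topology Complex
open Pool.Agent.TH339.MP (PP ee fr qq TX mem_TX norm_ee continuous_ee ee_add ee_add_left)
open scoped ComplexConjugate ENNReal

/-! ### general lemmas on means -/

lemma Mean.of_approx {f : ℝ → ℂ} {c : ℂ}
    (h : ∀ ε : ℝ, 0 < ε → ∃ (g : ℝ → ℂ) (c' : ℂ), Mean g c' ∧ ‖c' - c‖ ≤ ε ∧
      ∀ t T : ℝ, 1 ≤ T → ‖av f t T - av g t T‖ ≤ ε) : Mean f c := by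
  intro ε hε
  obtain ⟨g, c', hg, hc, hfg⟩ := h (ε / 3) (by positivity)
  obtain ⟨T₀, hT₀, h1⟩ := hg (ε / 3) (by positivity)
  refine ⟨max T₀ 1, lt_of_lt_of_le hT₀ (le_max_left _ _), fun T hT t => ?_⟩
  have h2 := h1 T ((le_max_left _ _).trans hT) t
  have h3 := hfg t T ((le_max_right _ _).trans hT)
  calc _ = ‖(av f t T - av g t T) + (av g t T - c') + (c' - c)‖ := by
        congr 1
        ring
    _ ≤ ε / 3 + ε / 3 + ε / 3 := by
        refine norm_add₃_le.trans ?_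
        gcongr
    _ = ε := by ring

lemma Mean.unique {f : ℝ → ℂ} {c d : ℂ} (h : Mean f c) (h' : Mean f d) : c = d := by
  by_contra hne
  have h0 : 0 < ‖c - d‖ := norm_pos_iff.2 (sub_ne_zero.2 hne)
  obtain ⟨T1, h1, h2⟩ := h (‖c - d‖ / 3) (by positivity)
  obtain ⟨T2, h3, h4⟩ := h' (‖c - d‖ / 3) (by positivity)
  have h5 := h2 (max T1 T2) (le_max_left _ _) 0
  have h6 := h4 (max T1 T2) (le_max_right _ _) 0
  have h7 : ‖c - d‖ ≤ ‖av f 0 (max T1 T2) - d‖ + ‖av f 0 (max T1 T2) - c‖ := by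
    calc ‖c - d‖ = ‖(av f 0 (max T1 T2) - d) - (av f 0 (max T1 T2) - c)‖ := by
          congr 1
          ring
      _ ≤ _ := norm_sub_le _ _
  linarith

lemma Mean.re_le {f : ℝ → ℂ} {c : ℂ} (h : Mean f c) {C : ℝ}
    (hC : ∀ t T : ℝ, 1 ≤ T → (av f t T).re ≤ C) : c.re ≤ C := by
  refine le_of_forall_pos_le_add fun ε hε => ?_
  obtain ⟨T1, h1, h2⟩ := h ε hε
  have h3 := h2 (max T1 1) (le_max_left _ _) 0
  have h4 := hC 0 (max T1 1) (le_max_right _ _)
  have h5 : |(av f 0 (max T1 1) - c).re| ≤ ε := (abs_re_le_norm _).trans h3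
  rw [Complex.sub_re, abs_le] at h5
  linarith

lemma av_sub {f g : ℝ → ℂ} {t T : ℝ} (hf : IntervalIntegrable f volume t (t + T))
    (hg : IntervalIntegrable g volume t (t + T)) :
    av f t T - av g t T = av (fun u => f u - g u) t T := by
  unfold av
  rw [intervalIntegral.integral_sub hf hg]
  ring

lemma norm_av_le_of {f : ℝ → ℂ} {g : ℝ → ℝ} {t T : ℝ} (hT : 0 < T) (h : ∀ u, ‖f u‖ ≤ g u)
    (hg : IntervalIntegrable g volume t (t + T)) :
    ‖av f t T‖ ≤ T⁻¹ * ∫ u in t..(t + T), g u := by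
  unfold av
  rw [norm_mul, norm_inv, Complex.norm_real, Real.norm_of_nonneg hT.le]
  refine mul_le_mul_of_nonneg_left ?_ (by positivity)
  exact intervalIntegral.norm_integral_le_of_norm_le (by linarith)
    (Eventually.of_forall fun u _ => h u) hg

lemma av_ofReal (f : ℝ → ℝ) (t T : ℝ) :
    av (fun u => (f u : ℂ)) t T = ((T⁻¹ * ∫ u in t..(t + T), f u : ℝ) : ℂ) := by
  unfold av
  rw [intervalIntegral.integral_ofReal]
  push_cast
  rfl

/-! ### the random variables -/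

lemma norm_toLp_sq (F : C(Om, ℂ)) :
    ‖ContinuousMap.toLp 2 Pr ℂ F‖ ^ 2 = ∫ ω, ‖F ω‖ ^ 2 ∂Pr := by
  have h1 := ContinuousMap.inner_toLp (𝕜 := ℂ) (μ := Pr) F F
  have h2 : ∀ ω, F ω * conj (F ω) = ((‖F ω‖ ^ 2 : ℝ) : ℂ) := by
    intro ω
    rw [Complex.mul_conj, Complex.normSq_eq_norm_sq]
  simp_rw [h2] at h1
  rw [integral_complex_ofReal, inner_self_eq_norm_sq_to_K] at h1
  apply Complex.ofReal_injective
  rw [← h1]
  push_cast
  rfl

section

variable {a : PP → ℂ} {lam : ℝ → ℂ} {η : ℕ → ℝ}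

lemma Apx.l2_diff (h : Apx a lam η) : ∀ᶠ X in atTop, ∀ᶠ Y in atTop,
    ∫ ω, ‖BXa a X ω - BXa a Y ω‖ ^ 2 ∂Pr ≤ 4 * (η X + η Y) := by
  have key := h.l2.and h.ii_diff
  filter_upwards [key] with X hX
  filter_upwards [key] with Y hY
  set F : C(Om, ℂ) := ⟨fun ω => ((‖BXa a X ω - BXa a Y ω‖ ^ 2 : ℝ) : ℂ), by fun_prop⟩ with hF
  have h1 := equi F
  have h2 : ∫ ω, F ω ∂Pr = ((∫ ω, ‖BXa a X ω - BXa a Y ω‖ ^ 2 ∂Pr : ℝ) : ℂ) := by
    rw [← integral_complex_ofReal]
    rfl
  rw [h2] at h1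
  have h3 := h1.re_le (C := 4 * (η X + η Y)) ?_
  · rwa [Complex.ofReal_re] at h3
  intro t T hT
  have hT0 : 0 < T := by linarith
  have h4 : (fun u => F (fl u)) = fun u => ((‖PSa a X u - PSa a Y u‖ ^ 2 : ℝ) : ℂ) := by
    funext u
    change ((‖BXa a X (fl u) - BXa a Y (fl u)‖ ^ 2 : ℝ) : ℂ) = _
    rw [BXa_fl, BXa_fl]
  rw [h4, av_ofReal, Complex.ofReal_re]
  have h5 : ∫ u in t..(t + T), ‖PSa a X u - PSa a Y u‖ ^ 2 ≤
      ∫ u in t..(t + T), (2 * ‖lam u - PSa a X u‖ ^ 2 + 2 * ‖lam u - PSa a Y u‖ ^ 2) := by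
    refine intervalIntegral.integral_mono_on (by linarith)
      ((((continuous_PSa a X).sub (continuous_PSa a Y)).norm.pow 2).intervalIntegrable _ _)
      (((hX.2.2 _ _).const_mul 2).add ((hY.2.2 _ _).const_mul 2)) fun u _ => ?_
    have e : PSa a X u - PSa a Y u = (lam u - PSa a Y u) - (lam u - PSa a X u) := by ring
    rw [e]
    have h6 := norm_sub_le (lam u - PSa a Y u) (lam u - PSa a X u)
    nlinarith [sq_nonneg (‖lam u - PSa a X u‖ - ‖lam u - PSa a Y u‖), norm_nonneg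
      (lam u - PSa a Y u - (lam u - PSa a X u)), norm_nonneg (lam u - PSa a X u),
      norm_nonneg (lam u - PSa a Y u)]
  rw [intervalIntegral.integral_add ((hX.2.2 _ _).const_mul 2) ((hY.2.2 _ _).const_mul 2),
    intervalIntegral.integral_const_mul, intervalIntegral.integral_const_mul] at h5
  have h6 := hX.1 t T hT
  have h7 := hY.1 t T hT
  rw [inv_mul_le_iff₀ hT0]
  linarith

end

/-- `B` is the limit in the mean square of the random partial sums -/
structure RV (a : PP → ℂ) (B : Om → ℂ) : Prop where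
  meas : Measurable B
  memLp : MemLp B 2 Pr
  lim : Tendsto (fun X => eLpNorm (fun ω => B ω - BXa a X ω) 2 Pr) atTop (𝓝 0)

theorem Apx.exists_RV {a : PP → ℂ} {lam : ℝ → ℂ} {η : ℕ → ℝ} (h : Apx a lam η) :
    ∃ B : Om → ℂ, RV a B := by
  have hc : CauchySeq fun X => ContinuousMap.toLp 2 Pr ℂ (BXa a X) := by
    rw [Metric.cauchySeq_iff]
    intro ε hε
    have h1 : ∀ᶠ X in atTop, η X < ε ^ 2 / 64 := h.lim.eventually_lt_const (by positivity)
    obtain ⟨X, hX1, hX2⟩ := (h1.and h.l2_diff).exists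
    obtain ⟨N, hN⟩ := eventually_atTop.1 (h1.and hX2)
    have key : ∀ Y, N ≤ Y → dist (ContinuousMap.toLp 2 Pr ℂ (BXa a X))
        (ContinuousMap.toLp 2 Pr ℂ (BXa a Y)) < ε / 2 := by
      intro Y hY
      obtain ⟨h2, h3⟩ := hN Y hY
      rw [dist_eq_norm, ← map_sub]
      refine lt_of_pow_lt_pow_left₀ 2 (by positivity) ?_
      rw [norm_toLp_sq]
      simp only [ContinuousMap.sub_apply]
      refine lt_of_le_of_lt h3 ?_
      nlinarith
    refine ⟨N, fun m hm n hn => ?_⟩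
    calc _ ≤ dist (ContinuousMap.toLp 2 Pr ℂ (BXa a m)) (ContinuousMap.toLp 2 Pr ℂ (BXa a X)) +
          dist (ContinuousMap.toLp 2 Pr ℂ (BXa a X)) (ContinuousMap.toLp 2 Pr ℂ (BXa a n)) :=
          dist_triangle _ _ _
      _ < ε / 2 + ε / 2 := by
          rw [dist_comm]
          exact add_lt_add (key m hm) (key n hn)
      _ = ε := by ring
  obtain ⟨f, hf⟩ := cauchySeq_tendsto_of_complete hc
  refine ⟨f, (Lp.stronglyMeasurable f).measurable, Lp.memLp f, ?_⟩
  rw [Lp.tendsto_Lp_iff_tendsto_eLpNorm'] at hf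
  refine hf.congr fun X => ?_
  rw [eLpNorm_sub_comm]
  refine eLpNorm_congr_ae ?_
  filter_upwards [ContinuousMap.coeFn_toLp (p := 2) (𝕜 := ℂ) Pr (BXa a X)] with ω hω
  rw [Pi.sub_apply, hω]


lemma RV.int_diff {a : PP → ℂ} {B : Om → ℂ} (h : RV a B) (X : ℕ) :
    Integrable (fun ω => B ω - BXa a X ω) Pr :=
  ((h.memLp.integrable (by norm_num)).sub
    ((BoundedContinuousFunction.mkOfCompact (BXa a X)).integrable Pr))

lemma RV.l1 {a : PP → ℂ} {B : Om → ℂ} (h : RV a B) :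
    Tendsto (fun X => ∫ ω, ‖B ω - BXa a X ω‖ ∂Pr) atTop (𝓝 0) := by
  have h1 : ∀ X, ∫ ω, ‖B ω - BXa a X ω‖ ∂Pr ≤ (eLpNorm (fun ω => B ω - BXa a X ω) 2 Pr).toReal := by
    intro X
    have hm := (h.int_diff X).aestronglyMeasurable
    have h2 : eLpNorm (fun ω => B ω - BXa a X ω) 1 Pr ≤ eLpNorm (fun ω => B ω - BXa a X ω) 2 Pr :=
      eLpNorm_le_eLpNorm_of_exponent_le (by norm_num) hm
    have h3 : MemLp (fun ω => B ω - BXa a X ω) 2 Pr := h.memLp.sub
      (MemLp.of_bound (map_continuous (BXa a X)).aestronglyMeasurable ‖BXa a X‖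
        (Eventually.of_forall fun ω => (BXa a X).norm_coe_le_norm ω))
    rw [integral_norm_eq_lintegral_enorm hm, ← eLpNorm_one_eq_lintegral_enorm]
    exact ENNReal.toReal_mono h3.2.ne h2
  have h2 : Tendsto (fun X => (eLpNorm (fun ω => B ω - BXa a X ω) 2 Pr).toReal) atTop (𝓝 0) := by
    have := (ENNReal.tendsto_toReal ENNReal.zero_ne_top).comp h.lim
    rw [ENNReal.toReal_zero] at this
    exact this
  exact squeeze_zero (fun X => integral_nonneg fun ω => norm_nonneg _) h1 h2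

lemma dist_pi_le_sum {r : ℕ} (x y : Fin r → ℂ) : dist x y ≤ ∑ j, ‖x j - y j‖ := by
  rw [dist_pi_le_iff (Finset.sum_nonneg fun j _ => norm_nonneg _)]
  intro j
  rw [dist_eq_norm]
  exact Finset.single_le_sum (f := fun j => ‖x j - y j‖) (fun i _ => norm_nonneg _)
    (Finset.mem_univ j)

section law

variable {r : ℕ} {a : Fin r → PP → ℂ} {lam : Fin r → ℝ → ℂ} {η : Fin r → ℕ → ℝ}
  {B : Fin r → Om → ℂ}

lemma meas_law (h : ∀ j, Apx (a j) (lam j) (η j)) : AEMeasurable fun u => fun j => lam j u :=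
  aemeasurable_pi_lambda _ fun j => (h j).meas

lemma ii_law (h : ∀ j, Apx (a j) (lam j) (η j)) {Φ : (Fin r → ℂ) → ℝ} (hΦ : Continuous Φ) {C : ℝ}
    (hC : ∀ x, |Φ x| ≤ C) (s t : ℝ) :
    IntervalIntegrable (fun u => ((Φ (fun j => lam j u) : ℝ) : ℂ)) volume s t := by
  have h1 : IntervalIntegrable (fun _ : ℝ => C) volume s t := intervalIntegrable_const
  refine h1.mono_fun ?_ (Eventually.of_forall fun u => ?_)
  · exact (measurable_ofReal.comp_aemeasurable (hΦ.measurable.comp_aemeasurable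
      (meas_law h))).aestronglyMeasurable.restrict
  · change ‖((Φ (fun j => lam j u) : ℝ) : ℂ)‖ ≤ ‖C‖
    rw [Complex.norm_real, Real.norm_eq_abs, Real.norm_eq_abs]
    exact (hC _).trans (le_abs_self C)

/-- **The limiting distribution**, Lipschitz functions. -/
theorem law_lip (h : ∀ j, Apx (a j) (lam j) (η j)) (hB : ∀ j, RV (a j) (B j))
    {Φ : (Fin r → ℂ) → ℝ} {C : ℝ} (hC : ∀ x, |Φ x| ≤ C) {K : NNReal} (hΦ : LipschitzWith K Φ) :
    Mean (fun u => ((Φ (fun j => lam j u) : ℝ) : ℂ))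
      ((∫ ω, Φ (fun j => B j ω) ∂Pr : ℝ) : ℂ) := by
  have hcont := hΦ.continuous
  refine Mean.of_approx fun ε hε => ?_
  -- choice of `X`
  have hlim1 : Tendsto (fun X => (K : ℝ) * ∑ j, Real.sqrt (2 * η j X)) atTop (𝓝 0) := by
    have h1 : ∀ j, Tendsto (fun X => Real.sqrt (2 * η j X)) atTop (𝓝 0) := by
      intro j
      have h2 := ((h j).lim.const_mul 2)
      have h3 := (Real.continuous_sqrt.tendsto _).comp h2
      rw [mul_zero, Real.sqrt_zero] at h3
      exact h3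
    have h2 := (tendsto_finsetSum (Finset.univ : Finset (Fin r)) fun j _ => h1 j).const_mul (K : ℝ)
    simpa using h2
  have hlim2 : Tendsto (fun X => (K : ℝ) * ∑ j, ∫ ω, ‖B j ω - BXa (a j) X ω‖ ∂Pr) atTop (𝓝 0) := by
    have h2 := (tendsto_finsetSum (Finset.univ : Finset (Fin r)) fun j _ =>
      (hB j).l1).const_mul (K : ℝ)
    simpa using h2
  have hl1 : ∀ᶠ X in atTop, ∀ j, (∀ (t T : ℝ), 1 ≤ T →
      ∫ u in t..(t + T), ‖lam j u - PSa (a j) X u‖ ≤ T * Real.sqrt (2 * η j X)) ∧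
      ∀ s t : ℝ, IntervalIntegrable (fun u => lam j u - PSa (a j) X u) volume s t :=
    eventually_all.2 fun j => (h j).l1.and ((h j).ii_diff.mono fun X hX => hX.1)
  obtain ⟨X, ⟨h1, h2⟩, h3⟩ := (((hlim1.eventually_lt_const hε).and
    (hlim2.eventually_lt_const hε)).and hl1).exists
  set F : C(Om, ℂ) := ⟨fun ω => ((Φ (fun j => BXa (a j) X ω) : ℝ) : ℂ),
    Complex.continuous_ofReal.comp (hcont.comp (continuous_pi fun j => map_continuous _))⟩ with hF
  refine ⟨fun u => F (fl u), ∫ ω, F ω ∂Pr, equi F, ?_, fun t T hT => ?_⟩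
  · -- the random variables
    have h4 : ∫ ω, F ω ∂Pr = ((∫ ω, Φ (fun j => BXa (a j) X ω) ∂Pr : ℝ) : ℂ) := by
      rw [← integral_complex_ofReal]
      rfl
    rw [h4, ← Complex.ofReal_sub, Complex.norm_real]
    have hi1 : Integrable (fun ω => Φ (fun j => BXa (a j) X ω)) Pr := by
      refine Integrable.of_bound (C := C) (hcont.comp (continuous_pi fun j =>
        map_continuous (BXa (a j) X))).aestronglyMeasurable (Eventually.of_forall fun ω => ?_)
      rw [Real.norm_eq_abs]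
      exact hC _
    have hi2 : Integrable (fun ω => Φ (fun j => B j ω)) Pr := by
      refine Integrable.of_bound (C := C) (hcont.measurable.comp
        (measurable_pi_lambda _ fun j => (hB j).meas)).aestronglyMeasurable
        (Eventually.of_forall fun ω => ?_)
      rw [Real.norm_eq_abs]
      exact hC _
    rw [← integral_sub hi1 hi2]
    have hi3 : ∀ j, Integrable (fun ω => ‖B j ω - BXa (a j) X ω‖) Pr := fun j =>
      ((hB j).int_diff X).norm
    refine (norm_integral_le_of_norm_le (g := fun ω => (K : ℝ) * ∑ j, ‖B j ω - BXa (a j) X ω‖)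
      ((integrable_finsetSum _ fun j _ => hi3 j).const_mul _)
      (Eventually.of_forall fun ω => ?_)).trans ?_
    · rw [← dist_eq_norm]
      refine (hΦ.dist_le_mul _ _).trans (mul_le_mul_of_nonneg_left ?_ K.2)
      rw [dist_comm]
      exact dist_pi_le_sum _ _
    · rw [integral_const_mul, integral_finsetSum _ fun j _ => hi3 j]
      exact h2.le
  · have hT0 : 0 < T := by linarith
    have h4 : (fun u => F (fl u)) = fun u => ((Φ (fun j => PSa (a j) X u) : ℝ) : ℂ) := by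
      funext u
      change ((Φ (fun j => BXa (a j) X (fl u)) : ℝ) : ℂ) = _
      simp_rw [BXa_fl]
    rw [h4]
    have hii : IntervalIntegrable (fun u => ((Φ (fun j => PSa (a j) X u) : ℝ) : ℂ)) volume t (t + T) :=
      Continuous.intervalIntegrable (Complex.continuous_ofReal.comp (hcont.comp
        (continuous_pi fun j => continuous_PSa (a j) X))) _ _
    rw [av_sub (ii_law h hcont hC _ _) hii]
    have hii2 : ∀ j, IntervalIntegrable (fun u => ‖lam j u - PSa (a j) X u‖) volume t (t + T) :=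
      fun j => ((h3 j).2 _ _).norm
    refine (norm_av_le_of (g := fun u => (K : ℝ) * ∑ j, ‖lam j u - PSa (a j) X u‖) hT0
      (fun u => ?_) ?_).trans ?_
    · rw [← Complex.ofReal_sub, Complex.norm_real, ← dist_eq_norm]
      exact (hΦ.dist_le_mul _ _).trans (mul_le_mul_of_nonneg_left (dist_pi_le_sum _ _) K.2)
    · have := IntervalIntegrable.sum Finset.univ (f := fun j u => ‖lam j u - PSa (a j) X u‖)
        fun j _ => hii2 j
      have h5 := this.const_mul (K : ℝ)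
      exact h5.congr fun u _ => by simp
    · rw [intervalIntegral.integral_const_mul, intervalIntegral.integral_finsetSum fun j _ => hii2 j]
      have h5 : ∑ j, ∫ u in t..(t + T), ‖lam j u - PSa (a j) X u‖ ≤
          ∑ j, T * Real.sqrt (2 * η j X) := Finset.sum_le_sum fun j _ => (h3 j).1 t T hT
      rw [← Finset.mul_sum] at h5
      rw [inv_mul_le_iff₀ hT0]
      calc (K : ℝ) * ∑ j, ∫ u in t..(t + T), ‖lam j u - PSa (a j) X u‖
          ≤ K * (T * ∑ j, Real.sqrt (2 * η j X)) := mul_le_mul_of_nonneg_left h5 K.2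
        _ = T * (K * ∑ j, Real.sqrt (2 * η j X)) := by ring
        _ ≤ T * ε := mul_le_mul_of_nonneg_left h1.le hT0.le

end law

end Pool.Agent.V8H35.BJ
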