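import Pool.Agent.V8H35.BJ.Law

/-!
# The limiting distribution: continuous functions, closed sets; Fourier coefficients and Parseval
-/

set_option autoImplicit false

namespace Pool.Agent.V8H35.BJ

open MeasureTheory Filter Topology Complex
open Pool.Agent.TH339.MP (PP ee fr qq TX mem_TX norm_ee continuous_ee ee_add ee_add_left)
open scoped ComplexConjugate ENNReal

section law

variable {r : ℕ} {a : Fin r → PP → ℂ} {lam : Fin r → ℝ → ℂ} {η : Fin r → ℕ → ℝ}
  {B : Fin r → Om → ℂ}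

/-- the law of the values on an interval -/
noncomputable def lawAt (L : ℝ → Fin r → ℂ) (t T : ℝ) : Measure (Fin r → ℂ) :=
  ((ENNReal.ofReal T)⁻¹ • volume.restrict (Set.Icc t (t + T))).map L

lemma lawAt_prob {L : ℝ → Fin r → ℂ} (hL : AEMeasurable L) (t : ℝ) {T : ℝ} (hT : 0 < T) :
    IsProbabilityMeasure (lawAt L t T) := by
  unfold lawAt
  have h1 : IsProbabilityMeasure ((ENNReal.ofReal T)⁻¹ • volume.restrict (Set.Icc t (t + T))) := by
    refine ⟨?_⟩
    rw [Measure.smul_apply, Measure.restrict_apply MeasurableSet.univ, Set.univ_inter,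
      Real.volume_Icc, add_sub_cancel_left, smul_eq_mul]
    exact ENNReal.inv_mul_cancel (by simpa using hT) ENNReal.ofReal_ne_top
  exact Measure.isProbabilityMeasure_map (hL.restrict.smul_measure _)

lemma integral_lawAt {L : ℝ → Fin r → ℂ} (hL : AEMeasurable L) (t : ℝ) {T : ℝ} (hT : 0 < T)
    {Φ : (Fin r → ℂ) → ℝ} (hΦ : Continuous Φ) :
    ∫ x, Φ x ∂(lawAt L t T) = T⁻¹ * ∫ u in t..(t + T), Φ (L u) := by
  unfold lawAt
  rw [integral_map (hL.restrict.smul_measure _) hΦ.aestronglyMeasurable, integral_smul_measure,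
    intervalIntegral.integral_of_le (by linarith), ← integral_Icc_eq_integral_Ioc, smul_eq_mul,
    ENNReal.toReal_inv, ENNReal.toReal_ofReal hT.le]

/-- **The limiting distribution**, continuous functions. -/
theorem law_cont (h : ∀ j, Apx (a j) (lam j) (η j)) (hB : ∀ j, RV (a j) (B j))
    {Φ : (Fin r → ℂ) → ℝ} {C : ℝ} (hC : ∀ x, |Φ x| ≤ C) (hΦ : Continuous Φ) :
    Mean (fun u => ((Φ (fun j => lam j u) : ℝ) : ℂ))
      ((∫ ω, Φ (fun j => B j ω) ∂Pr : ℝ) : ℂ) := by
  by_contra hcon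
  unfold Mean at hcon
  push Not at hcon
  obtain ⟨ε, hε, hcon⟩ := hcon
  have h1 : ∀ n : ℕ, ∃ T : ℝ, (n : ℝ) + 1 ≤ T ∧ ∃ t : ℝ,
      ε < ‖av (fun u => ((Φ (fun j => lam j u) : ℝ) : ℂ)) t T -
        ((∫ ω, Φ (fun j => B j ω) ∂Pr : ℝ) : ℂ)‖ := fun n => hcon (n + 1) (by positivity)
  choose T hT t ht using h1
  have hT0 : ∀ n, 0 < T n := fun n => lt_of_lt_of_le (by positivity) (hT n)
  have hTT : Tendsto T atTop atTop :=
    tendsto_atTop_mono (fun n => (by linarith [hT n] : (n : ℝ) ≤ T n)) tendsto_natCast_atTop_atTop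
  set L : ℝ → Fin r → ℂ := fun u j => lam j u with hL
  have hLm : AEMeasurable L := meas_law h
  have hBm : Measurable fun ω => fun j => B j ω := measurable_pi_lambda _ fun j => (hB j).meas
  set μs : ℕ → ProbabilityMeasure (Fin r → ℂ) := fun n =>
    ⟨lawAt L (t n) (T n), lawAt_prob hLm (t n) (hT0 n)⟩ with hμs
  set μ : ProbabilityMeasure (Fin r → ℂ) := ⟨Pr.map fun ω => fun j => B j ω,
    Measure.isProbabilityMeasure_map hBm.aemeasurable⟩ with hμ
  have hint : ∀ Ψ : (Fin r → ℂ) → ℝ, Continuous Ψ →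
      ∫ x, Ψ x ∂(μ : Measure (Fin r → ℂ)) = ∫ ω, Ψ (fun j => B j ω) ∂Pr := fun Ψ hΨ =>
    integral_map hBm.aemeasurable hΨ.aestronglyMeasurable
  have hlim : Tendsto μs atTop (𝓝 μ) := by
    rw [tendsto_iff_forall_lipschitz_integral_tendsto]
    rintro Ψ ⟨C', hC'⟩ ⟨K, hK⟩
    have hb : ∀ x, |Ψ x| ≤ |Ψ 0| + C' := by
      intro x
      have h2 := hC' x 0
      rw [Real.dist_eq] at h2
      have h3 : |Ψ x| ≤ |Ψ x - Ψ 0| + |Ψ 0| := by
        calc |Ψ x| = |(Ψ x - Ψ 0) + Ψ 0| := by congr 1; ring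
          _ ≤ _ := abs_add_le _ _
      linarith
    have h2 := law_lip h hB hb hK
    rw [Metric.tendsto_atTop]
    intro δ hδ
    obtain ⟨T₀, -, h3⟩ := h2 (δ / 2) (by positivity)
    obtain ⟨N, hN⟩ := eventually_atTop.1 (hTT.eventually_ge_atTop T₀)
    refine ⟨N, fun n hn => ?_⟩
    have h4 := h3 (T n) (hN n hn) (t n)
    rw [av_ofReal, ← Complex.ofReal_sub, Complex.norm_real] at h4
    rw [hint Ψ hK.continuous]
    change dist (∫ x, Ψ x ∂(lawAt L (t n) (T n))) _ < δ
    rw [integral_lawAt hLm (t n) (hT0 n) hK.continuous, Real.dist_eq]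
    rw [Real.norm_eq_abs] at h4
    exact lt_of_le_of_lt h4 (by linarith)
  rw [ProbabilityMeasure.tendsto_iff_forall_integral_tendsto] at hlim
  have h2 := hlim (BoundedContinuousFunction.ofNormedAddCommGroup Φ hΦ C fun x => by
    rw [Real.norm_eq_abs]; exact hC x)
  rw [Metric.tendsto_atTop] at h2
  obtain ⟨N, hN⟩ := h2 ε hε
  have h3 := hN N le_rfl
  have h4 := ht N
  rw [av_ofReal, ← Complex.ofReal_sub, Complex.norm_real] at h4
  have h5 : ∫ x, Φ x ∂(lawAt L (t N) (T N)) = (T N)⁻¹ * ∫ u in (t N)..(t N + T N), Φ (L u) :=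
    integral_lawAt hLm (t N) (hT0 N) hΦ
  have h6 : dist (∫ x, Φ x ∂(lawAt L (t N) (T N))) (∫ x, Φ x ∂(μ : Measure (Fin r → ℂ))) < ε := h3
  rw [h5, hint Φ hΦ, Real.dist_eq] at h6
  rw [Real.norm_eq_abs] at h4
  exact absurd h6 (not_lt.2 h4.le)

/-- **Closed sets.** -/
theorem law_closed (h : ∀ j, Apx (a j) (lam j) (η j)) (hB : ∀ j, RV (a j) (B j))
    {F : Set (Fin r → ℂ)} (hF : IsClosed F) {ε : ℝ} (hε : 0 < ε) :
    ∃ T₀ : ℝ, 0 < T₀ ∧ ∀ T : ℝ, T₀ ≤ T → ∀ t : ℝ,
      volume {u ∈ Set.Icc t (t + T) | (fun j => lam j u) ∈ F} ≤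
        ENNReal.ofReal ((Pr.real {ω | (fun j => B j ω) ∈ F} + ε) * T) := by
  have hBm : Measurable fun ω => fun j => B j ω := measurable_pi_lambda _ fun j => (hB j).meas
  have hpμ : IsProbabilityMeasure (Pr.map fun ω => fun j => B j ω) :=
    Measure.isProbabilityMeasure_map hBm.aemeasurable
  have h0 : Tendsto (fun n : ℕ => ∫ x, ((thickenedIndicator (δ := (1 : ℝ) / (n + 1)) (by positivity)
      F x : NNReal) : ℝ) ∂(Pr.map fun ω => fun j => B j ω)) atTop
      (𝓝 ((Pr.map fun ω => fun j => B j ω).real F)) :=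
    tendsto_integral_thickenedIndicator_of_isClosed _ hF (δs := fun n : ℕ => (1 : ℝ) / (n + 1))
      (fun _ => by positivity) tendsto_one_div_add_atTop_nhds_zero_nat
  have h1 : (Pr.map fun ω => fun j => B j ω).real F = Pr.real {ω | (fun j => B j ω) ∈ F} := by
    unfold Measure.real
    rw [Measure.map_apply hBm hF.measurableSet]
    rfl
  rw [h1] at h0
  obtain ⟨n, hn⟩ := (h0.eventually_lt_const
    (lt_add_of_pos_right (Pr.real {ω | (fun j => B j ω) ∈ F}) (by positivity : 0 < ε / 2))).exists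
  set Φ : (Fin r → ℂ) → ℝ := fun x => ((thickenedIndicator (δ := (1 : ℝ) / (n + 1)) (by positivity)
      F x : NNReal) : ℝ) with hΦ
  have hc : Continuous Φ := NNReal.continuous_coe.comp (map_continuous _)
  have hn1 : ∀ x, 0 ≤ Φ x := fun x => NNReal.coe_nonneg _
  have hn2 : ∀ x, Φ x ≤ 1 := fun x => by
    have := thickenedIndicator_le_one (δ := (1 : ℝ) / (n + 1)) (by positivity) F x
    rw [hΦ]
    simp only
    exact_mod_cast this
  have hn3 : ∀ x ∈ F, 1 ≤ Φ x := fun x hx => by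
    rw [hΦ]
    simp only
    rw [thickenedIndicator_one (by positivity) F hx]
    simp
  rw [integral_map hBm.aemeasurable hc.aestronglyMeasurable] at hn
  have h2 := law_cont h hB (Φ := Φ) (C := 1) (fun x => by
    rw [abs_of_nonneg (hn1 x)]
    exact hn2 x) hc
  obtain ⟨T₀, hT₀, h3⟩ := h2 (ε / 2) (by positivity)
  refine ⟨T₀, hT₀, fun T hT t => ?_⟩
  have hT0 : 0 < T := lt_of_lt_of_le hT₀ hT
  have h4 := h3 T hT t
  rw [av_ofReal, ← Complex.ofReal_sub, Complex.norm_real, Real.norm_eq_abs, abs_le] at h4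
  have h5 : ∫ u in t..(t + T), Φ (fun j => lam j u) ≤
      (Pr.real {ω | (fun j => B j ω) ∈ F} + ε) * T := by
    have h6 : T⁻¹ * ∫ u in t..(t + T), Φ (fun j => lam j u) ≤
        Pr.real {ω | (fun j => B j ω) ∈ F} + ε := by linarith [h4.2]
    rwa [inv_mul_le_iff₀ hT0, mul_comm] at h6
  have hii := ii_law h hc (C := 1) (fun x => by
    rw [abs_of_nonneg (hn1 x)]
    exact hn2 x) t (t + T)
  have hi : IntegrableOn (fun u => Φ (fun j => lam j u)) (Set.Icc t (t + T)) := by
    rw [← intervalIntegrable_iff_integrableOn_Icc_of_le (by linarith)]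
    have := hii.norm
    refine this.congr fun u _ => ?_
    change ‖((Φ (fun j => lam j u) : ℝ) : ℂ)‖ = Φ (fun j => lam j u)
    rw [Complex.norm_real, Real.norm_of_nonneg (hn1 _)]
  rw [intervalIntegral.integral_of_le (by linarith), ← integral_Icc_eq_integral_Ioc] at h5
  have h7 : volume {u ∈ Set.Icc t (t + T) | (fun j => lam j u) ∈ F} ≤
      (volume.restrict (Set.Icc t (t + T))) {u | (1 : ℝ≥0∞) ≤ ENNReal.ofReal (Φ (fun j => lam j u))} := by
    refine le_trans (measure_mono ?_) (Measure.le_restrict_apply _ _)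
    intro u hu
    refine ⟨?_, hu.1⟩
    change 1 ≤ ENNReal.ofReal _
    rw [← ENNReal.ofReal_one]
    exact ENNReal.ofReal_le_ofReal (hn3 _ hu.2)
  refine h7.trans ?_
  have h8 := mul_meas_ge_le_lintegral₀ (μ := volume.restrict (Set.Icc t (t + T)))
    (hi.aestronglyMeasurable.aemeasurable.ennreal_ofReal) 1
  rw [one_mul] at h8
  refine h8.trans ?_
  rw [← ofReal_integral_eq_lintegral_ofReal hi (Eventually.of_forall fun u => hn1 _)]
  exact ENNReal.ofReal_le_ofReal h5

end law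

/-! ### Fourier coefficients and Parseval -/

section

variable {a : PP → ℂ} {lam : ℝ → ℂ} {η : ℕ → ℝ}

lemma Mean.sum {ι : Type} (s : Finset ι) {f : ι → ℝ → ℂ} {c : ι → ℂ} (h : ∀ i ∈ s, Mean (f i) (c i))
    (hf : ∀ i ∈ s, ∀ a b : ℝ, IntervalIntegrable (f i) volume a b) :
    Mean (fun u => ∑ i ∈ s, f i u) (∑ i ∈ s, c i) := by
  classical
  induction s using Finset.induction_on with
  | empty =>
    simp only [Finset.sum_empty]
    exact Mean.const 0
  | insert i s hi ih =>
    simp only [Finset.sum_insert hi]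
    refine Mean.add (h i (Finset.mem_insert_self _ _))
      (ih (fun j hj => h j (Finset.mem_insert_of_mem hj))
        fun j hj => hf j (Finset.mem_insert_of_mem hj)) (hf i (Finset.mem_insert_self _ _))
      fun a b => ?_
    have := IntervalIntegrable.sum s (f := f) (a := a) (b := b) (μ := volume)
      fun j hj => hf j (Finset.mem_insert_of_mem hj) a b
    exact this.congr fun u _ => by simp

lemma Mean.ee {l : ℝ} (hl : l ≠ 0) : Mean (fun u => ee l u) 0 := Mean.exp hl

lemma Mean.ee' (l : ℝ) [Decidable (l = 0)] : Mean (fun u => Pool.Agent.TH339.MP.ee l u) (if l = 0 then 1 else 0) := by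
  split_ifs with h
  · subst h
    simp only [Pool.Agent.TH339.MP.ee_zero_left]
    exact Mean.const 1
  · exact Mean.ee h

open Classical in
/-- **Fourier coefficients.** -/
theorem Apx.fourier (h : Apx a lam η) (l : ℝ) {c : ℂ}
    (hc : ∀ᶠ X in atTop, ∑ x ∈ TX X, (if fr x + l = 0 then a x else 0) = c) :
    Mean (fun u => lam u * Pool.Agent.TH339.MP.ee l u) c := by
  refine Mean.of_approx fun ε hε => ?_
  have hlim1 : Tendsto (fun X => Real.sqrt (2 * η X)) atTop (𝓝 0) := by
    have h3 := (Real.continuous_sqrt.tendsto _).comp (h.lim.const_mul 2)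
    rw [mul_zero, Real.sqrt_zero] at h3
    exact h3
  obtain ⟨X, ⟨⟨h1, h2⟩, h3⟩, h4⟩ := (((hlim1.eventually_lt_const hε).and h.l1).and
    h.ii_diff).and hc |>.exists
  refine ⟨fun u => ∑ x ∈ TX X, a x * Pool.Agent.TH339.MP.ee (fr x + l) u,
    ∑ x ∈ TX X, a x * (if fr x + l = 0 then 1 else 0), ?_, ?_, fun t T hT => ?_⟩
  · exact Mean.sum _ (fun x _ => (Mean.ee' _).const_mul _) fun x _ s t =>
      (continuous_const.mul (continuous_ee _)).intervalIntegrable _ _
  · rw [← h4]
    simp only [mul_ite, mul_one, mul_zero, sub_self, norm_zero]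
    exact hε.le
  · have hT0 : 0 < T := by linarith
    have e : (fun u => ∑ x ∈ TX X, a x * Pool.Agent.TH339.MP.ee (fr x + l) u) =
        fun u => PSa a X u * Pool.Agent.TH339.MP.ee l u := by
      funext u
      unfold PSa
      rw [Finset.sum_mul]
      refine Finset.sum_congr rfl fun x _ => ?_
      rw [ee_add_left]
      ring
    rw [e]
    have hee : ContinuousOn (Pool.Agent.TH339.MP.ee l) (Set.uIcc t (t + T)) :=
      (continuous_ee l).continuousOn
    have hcc : Continuous fun u => PSa a X u * Pool.Agent.TH339.MP.ee l u :=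
      (continuous_PSa a X).mul (continuous_ee l)
    rw [av_sub ((h.ii _ _).mul_continuousOn hee) (hcc.intervalIntegrable _ _)]
    refine (norm_av_le_of (g := fun u => ‖lam u - PSa a X u‖) hT0 (fun u => ?_)
      (h3.1 _ _).norm).trans ?_
    · rw [← sub_mul, norm_mul, norm_ee, mul_one]
    · rw [inv_mul_le_iff₀ hT0]
      exact (h2 t T hT).trans (mul_le_mul_of_nonneg_left h1.le hT0.le)

end

end Pool.Agent.V8H35.BJ
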