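import Pool.Agent.V8H35.BJ.Law2

/-!
# Parseval, almost periodicity
-/

set_option autoImplicit false

namespace Pool.Agent.V8H35.BJ

open MeasureTheory Filter Topology Complex
open Pool.Agent.TH339.MP (PP ee fr qq TX mem_TX norm_ee continuous_ee ee_add ee_add_left
  qq_injective)
open scoped ComplexConjugate ENNReal

/-! ### orthogonality -/

/-- the character of a prime power -/
noncomputable def sg (x : PP) : Nat.Primes →₀ ℤ := Finsupp.single x.1 ((x.2 + 1 : ℕ) : ℤ)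

lemma sg_injective : Function.Injective sg := by
  intro x y h
  unfold sg at h
  rw [Finsupp.single_eq_single_iff] at h
  rcases h with ⟨h1, h2⟩ | ⟨h1, -⟩
  · exact Prod.ext h1 (by omega)
  · omega

lemma chi_sg (x : PP) (ω : Om) : chi (sg x) ω = fourier ((x.2 + 1 : ℕ) : ℤ) (ω x.1) := by
  rw [chi_apply]
  unfold sg
  rw [Finsupp.prod_single_index
    (h := fun (p : Nat.Primes) (k : ℤ) => fourier k (ω p)) fourier_zero]

lemma int_BX_sq (a : PP → ℂ) (X : ℕ) :
    ∫ ω, ‖BXa a X ω‖ ^ 2 ∂Pr = ∑ x ∈ TX X, ‖a x‖ ^ 2 := by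
  classical
  have h1 : ∀ ω, ((‖BXa a X ω‖ ^ 2 : ℝ) : ℂ) =
      ∑ x ∈ TX X, ∑ y ∈ TX X, (a x * conj (a y)) * chi (sg x + -sg y) ω := by
    intro ω
    rw [← Complex.normSq_eq_norm_sq, Complex.normSq_eq_conj_mul_self, mul_comm, BXa_apply, map_sum,
      Finset.sum_mul_sum]
    refine Finset.sum_congr rfl fun x _ => Finset.sum_congr rfl fun y _ => ?_
    rw [chi_add, chi_neg, ContinuousMap.mul_apply, ContinuousMap.star_apply, chi_sg, chi_sg, map_mul]
    simp only [RCLike.star_def]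
    ring
  have hi : ∀ n : Nat.Primes →₀ ℤ, Integrable (fun ω => chi n ω) Pr := fun n =>
    (BoundedContinuousFunction.mkOfCompact (chi n)).integrable Pr
  have h2 : ((∫ ω, ‖BXa a X ω‖ ^ 2 ∂Pr : ℝ) : ℂ) = ((∑ x ∈ TX X, ‖a x‖ ^ 2 : ℝ) : ℂ) := by
    rw [← integral_complex_ofReal]
    simp_rw [h1]
    rw [integral_finsetSum _ fun x _ => integrable_finsetSum _ fun y _ => (hi _).const_mul _]
    rw [Complex.ofReal_sum]
    refine Finset.sum_congr rfl fun x hx => ?_
    rw [integral_finsetSum _ fun y _ => (hi _).const_mul _]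
    simp_rw [integral_const_mul, integral_chi]
    rw [Finset.sum_eq_single x]
    · rw [if_pos (by simp), mul_one, Complex.mul_conj, Complex.normSq_eq_norm_sq]
    · intro y _ hy
      rw [if_neg, mul_zero]
      intro h0
      apply hy
      apply sg_injective
      have : sg x = sg y := by
        have h3 := congrArg (· + sg y) h0
        simpa using h3
      exact this.symm
    · intro h
      exact absurd hx h
  exact_mod_cast h2

section

variable {a : PP → ℂ} {lam : ℝ → ℂ} {η : ℕ → ℝ}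

lemma BX_mono_sub (a : PP → ℂ) {X Y : ℕ} (hXY : X ≤ Y) (ω : Om) :
    BXa a Y ω - BXa a X ω = BXa (fun x => if qq x ≤ X then 0 else a x) Y ω := by
  classical
  rw [BXa_apply, BXa_apply, BXa_apply]
  have hsub : TX X ⊆ TX Y := by
    intro x hx
    rw [mem_TX] at hx ⊢
    exact hx.trans hXY
  rw [← Finset.sum_sdiff hsub, add_sub_cancel_right]
  rw [← Finset.sum_sdiff hsub (f := fun x => (if qq x ≤ X then 0 else a x) *
    fourier ((x.2 + 1 : ℕ) : ℤ) (ω x.1))]
  have h1 : ∑ x ∈ TX X, (if qq x ≤ X then 0 else a x) * fourier ((x.2 + 1 : ℕ) : ℤ) (ω x.1) = 0 := by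
    refine Finset.sum_eq_zero fun x hx => ?_
    rw [mem_TX] at hx
    rw [if_pos hx, zero_mul]
  rw [h1, add_zero]
  refine Finset.sum_congr rfl fun x hx => ?_
  rw [Finset.mem_sdiff, mem_TX, mem_TX] at hx
  rw [if_neg hx.2]

lemma Apx.summable (h : Apx a lam η) : Summable fun x => ‖a x‖ ^ 2 := by
  classical
  obtain ⟨X, hX⟩ := h.l2_diff.exists
  have h1 : ∀ᶠ Y in atTop, η Y < 1 := h.lim.eventually_lt_const one_pos
  obtain ⟨N, hN⟩ := eventually_atTop.1 (hX.and h1)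
  refine summable_of_sum_le (c := ∑ x ∈ TX X, ‖a x‖ ^ 2 + 4 * (η X + 1)) (fun x => by positivity)
    fun s => ?_
  obtain ⟨Y, hY⟩ : ∃ Y : ℕ, N ≤ Y ∧ X ≤ Y ∧ s ⊆ TX Y := by
    refine ⟨max (max N X) (s.sup qq), (le_max_left _ _).trans (le_max_left _ _),
      (le_max_right _ _).trans (le_max_left _ _), fun x hx => ?_⟩
    rw [mem_TX]
    exact (Finset.le_sup hx).trans (le_max_right _ _)
  obtain ⟨h2, h3⟩ := hN Y hY.1
  have h4 : ∫ ω, ‖BXa a X ω - BXa a Y ω‖ ^ 2 ∂Pr =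
      ∑ x ∈ TX Y, ‖if qq x ≤ X then 0 else a x‖ ^ 2 := by
    rw [← int_BX_sq]
    refine integral_congr_ae (Eventually.of_forall fun ω => ?_)
    simp only
    rw [← BX_mono_sub a hY.2.1, norm_sub_rev]
  rw [h4] at h2
  have hsub : TX X ⊆ TX Y := by
    intro x hx
    rw [mem_TX] at hx ⊢
    exact hx.trans hY.2.1
  calc ∑ x ∈ s, ‖a x‖ ^ 2 ≤ ∑ x ∈ TX Y, ‖a x‖ ^ 2 :=
        Finset.sum_le_sum_of_subset_of_nonneg hY.2.2 fun x _ _ => by positivity
    _ ≤ ∑ x ∈ TX X, ‖a x‖ ^ 2 + ∑ x ∈ TX Y, ‖if qq x ≤ X then 0 else a x‖ ^ 2 := by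
        rw [← Finset.sum_sdiff hsub, add_comm]
        refine add_le_add le_rfl ?_
        rw [← Finset.sum_sdiff hsub (f := fun x => ‖if qq x ≤ X then 0 else a x‖ ^ 2)]
        refine le_add_of_le_of_nonneg (le_of_eq ?_) (Finset.sum_nonneg fun x _ => by positivity)
        refine Finset.sum_congr rfl fun x hx => ?_
        rw [Finset.mem_sdiff, mem_TX, mem_TX] at hx
        rw [if_neg hx.2]
    _ ≤ _ := by
        have := h3.le
        have h5 := h2
        linarith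

lemma tendsto_TX : Tendsto TX atTop atTop := by
  refine tendsto_atTop_finset_of_monotone ?_ ?_
  · intro X Y hXY x hx
    rw [mem_TX] at hx ⊢
    exact hx.trans hXY
  · intro x
    exact ⟨qq x, (mem_TX _ _).2 le_rfl⟩

/-- the mean square is bounded, uniformly on all intervals of length at least one -/
lemma Apx.sq_bdd (h : Apx a lam η) : ∃ C : ℝ, 0 < C ∧ ∀ t T : ℝ, 1 ≤ T →
    ∫ u in t..(t + T), ‖lam u‖ ^ 2 ≤ T * C := by
  obtain ⟨X, ⟨h1, h2⟩, h3⟩ := ((h.l2).and h.ii_diff).and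
    (h.lim.eventually_lt_const one_pos) |>.exists
  set C₀ : ℝ := ∑ x ∈ TX X, ‖a x‖ with hC₀
  have hC : ∀ u, ‖PSa a X u‖ ≤ C₀ := by
    intro u
    unfold PSa
    refine (norm_sum_le _ _).trans (Finset.sum_le_sum fun x _ => ?_)
    rw [norm_mul, norm_ee, mul_one]
  refine ⟨4 + 2 * C₀ ^ 2, by positivity, fun t T hT => ?_⟩
  have h4 : ∫ u in t..(t + T), ‖lam u‖ ^ 2 ≤
      ∫ u in t..(t + T), (2 * ‖lam u - PSa a X u‖ ^ 2 + 2 * C₀ ^ 2) := by
    refine intervalIntegral.integral_mono_on (by linarith) (h.ii_sq _ _)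
      (((h2.2 _ _).const_mul 2).add intervalIntegrable_const) fun u _ => ?_
    have h5 : ‖lam u‖ ≤ ‖lam u - PSa a X u‖ + C₀ := by
      calc ‖lam u‖ = ‖(lam u - PSa a X u) + PSa a X u‖ := by congr 1; ring
        _ ≤ _ := (norm_add_le _ _).trans (add_le_add le_rfl (hC u))
    have h6 : 0 ≤ C₀ := (norm_nonneg _).trans (hC 0)
    nlinarith [sq_nonneg (‖lam u - PSa a X u‖ - C₀), norm_nonneg (lam u),
      norm_nonneg (lam u - PSa a X u)]
  rw [intervalIntegral.integral_add ((h2.2 _ _).const_mul 2) intervalIntegrable_const,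
    intervalIntegral.integral_const_mul, intervalIntegral.integral_const, smul_eq_mul,
    add_sub_cancel_left] at h4
  have h5 := h1 t T hT
  have h6 : 2 * T * η X ≤ 2 * T * 1 := mul_le_mul_of_nonneg_left h3.le (by linarith)
  nlinarith

/-- **Parseval.** -/
theorem Apx.parseval (h : Apx a lam η) :
    Mean (fun u => ((‖lam u‖ ^ 2 : ℝ) : ℂ)) ((∑' x, ‖a x‖ ^ 2 : ℝ) : ℂ) := by
  obtain ⟨C, hC0, hC⟩ := h.sq_bdd
  have hS : Tendsto (fun X => ∑ x ∈ TX X, ‖a x‖ ^ 2) atTop (𝓝 (∑' x, ‖a x‖ ^ 2)) :=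
    h.summable.hasSum.comp tendsto_TX
  refine Mean.of_approx fun ε hε => ?_
  set δ : ℝ := ε / (2 * C) with hδ
  have hδ0 : 0 < δ := by positivity
  have hlim : Tendsto (fun X => (1 + 1 / δ) * (2 * η X)) atTop (𝓝 0) := by
    have := (h.lim.const_mul 2).const_mul (1 + 1 / δ)
    simpa using this
  obtain ⟨X, ⟨⟨h1, h2⟩, h3⟩, h4⟩ := (((hlim.eventually_lt_const (half_pos hε)).and h.l2).and
    h.ii_diff).and (Metric.tendsto_nhds.1 hS ε hε) |>.exists
  set F : C(Om, ℂ) := ⟨fun ω => ((‖BXa a X ω‖ ^ 2 : ℝ) : ℂ), by fun_prop⟩ with hF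
  refine ⟨fun u => F (fl u), ∫ ω, F ω ∂Pr, equi F, ?_, fun t T hT => ?_⟩
  · have h5 : ∫ ω, F ω ∂Pr = ((∑ x ∈ TX X, ‖a x‖ ^ 2 : ℝ) : ℂ) := by
      rw [← int_BX_sq, ← integral_complex_ofReal]
      rfl
    rw [h5, ← Complex.ofReal_sub, Complex.norm_real, Real.norm_eq_abs, ← Real.dist_eq]
    exact h4.le
  · have hT0 : 0 < T := by linarith
    have e : (fun u => F (fl u)) = fun u => ((‖PSa a X u‖ ^ 2 : ℝ) : ℂ) := by
      funext u
      change ((‖BXa a X (fl u)‖ ^ 2 : ℝ) : ℂ) = _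
      rw [BXa_fl]
    rw [e]
    have hi1 : IntervalIntegrable (fun u => ((‖lam u‖ ^ 2 : ℝ) : ℂ)) volume t (t + T) :=
      ⟨(h.ii_sq _ _).1.ofReal, (h.ii_sq _ _).2.ofReal⟩
    have hcc : Continuous fun u => ((‖PSa a X u‖ ^ 2 : ℝ) : ℂ) :=
      Complex.continuous_ofReal.comp ((continuous_PSa a X).norm.pow 2)
    have hi2 : IntervalIntegrable (fun u => ((‖PSa a X u‖ ^ 2 : ℝ) : ℂ)) volume t (t + T) :=
      hcc.intervalIntegrable _ _
    rw [av_sub hi1 hi2]
    refine (norm_av_le_of (g := fun u => (1 + 1 / δ) * ‖lam u - PSa a X u‖ ^ 2 + δ * ‖lam u‖ ^ 2)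
      hT0 (fun u => ?_) (((h3.2 _ _).const_mul _).add ((h.ii_sq _ _).const_mul _))).trans ?_
    · rw [← Complex.ofReal_sub, Complex.norm_real, Real.norm_eq_abs, abs_le]
      set x := ‖lam u‖ with hx
      set y := ‖PSa a X u‖ with hy
      set d := ‖lam u - PSa a X u‖ with hd
      have hx0 : 0 ≤ x := norm_nonneg _
      have hy0 : 0 ≤ y := norm_nonneg _
      have hd0 : 0 ≤ d := norm_nonneg _
      have h5 : x - y ≤ d := norm_sub_norm_le _ _
      have h6 : y - x ≤ d := by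
        rw [hd, norm_sub_rev]
        exact norm_sub_norm_le _ _
      have h7 : 2 * d * x ≤ 1 / δ * d ^ 2 + δ * x ^ 2 := by
        have h8 : 0 ≤ (d - δ * x) ^ 2 / δ := by positivity
        have h9 : (d - δ * x) ^ 2 / δ = 1 / δ * d ^ 2 + δ * x ^ 2 - 2 * d * x := by
          field_simp
          ring
        linarith
      constructor <;> nlinarith
    · rw [intervalIntegral.integral_add ((h3.2 _ _).const_mul _) ((h.ii_sq _ _).const_mul _),
        intervalIntegral.integral_const_mul, intervalIntegral.integral_const_mul,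
        inv_mul_le_iff₀ hT0]
      have h5 := h2 t T hT
      have h6 := hC t T hT
      have h7 : (1 + 1 / δ) * ∫ u in t..(t + T), ‖lam u - PSa a X u‖ ^ 2 ≤
          (1 + 1 / δ) * (2 * T * η X) := mul_le_mul_of_nonneg_left h5 (by positivity)
      have h8 : δ * ∫ u in t..(t + T), ‖lam u‖ ^ 2 ≤ δ * (T * C) :=
        mul_le_mul_of_nonneg_left h6 hδ0.le
      have h9 : δ * (T * C) = T * (ε / 2) := by
        rw [hδ]
        field_simp
      have h10 : (1 + 1 / δ) * (2 * T * η X) = T * ((1 + 1 / δ) * (2 * η X)) := by ring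
      have h11 : T * ((1 + 1 / δ) * (2 * η X)) ≤ T * (ε / 2) :=
        mul_le_mul_of_nonneg_left h1.le hT0.le
      linarith

/-! ### almost periodicity -/

/-- the almost periods of the polynomials are relatively dense -/
lemma PSa_ap (a : PP → ℂ) (X : ℕ) {δ : ℝ} (hδ : 0 < δ) :
    ∃ l : ℝ, 0 < l ∧ ∀ s : ℝ, ∃ τ ∈ Set.Icc s (s + l), ∀ u : ℝ,
      ‖PSa a X (u + τ) - PSa a X u‖ ≤ δ := by
  classical
  set C₀ : ℝ := ∑ x ∈ TX X, ‖a x‖ with hC₀
  have hC₀0 : 0 ≤ C₀ := Finset.sum_nonneg fun x _ => norm_nonneg _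
  set δ' : ℝ := δ / (C₀ + 1) with hδ'
  have hδ'0 : 0 < δ' := by positivity
  set Ψ : ℝ → ({x // x ∈ TX X} → ℂ) := fun u x => ee (fr (x : PP)) u with hΨ
  have h1 : TotallyBounded (Set.range Ψ) := by
    refine TotallyBounded.subset ?_ (isCompact_closedBall (0 : {x // x ∈ TX X} → ℂ) 1).totallyBounded
    rintro - ⟨u, rfl⟩
    rw [mem_closedBall_zero_iff, pi_norm_le_iff_of_nonneg zero_le_one]
    intro x
    rw [hΨ]
    exact (norm_ee _ _).le
  obtain ⟨t, ht, htf, hcov⟩ := h1.exists_subset (Metric.dist_mem_uniformity hδ'0)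
  have h2 : ∀ y : t, ∃ u, Ψ u = y := fun y => ht y.2
  choose U hU using h2
  have : Finite t := htf
  obtain ⟨R, hR⟩ : ∃ R : ℝ, ∀ y : t, |U y| ≤ R := by
    obtain ⟨R, hR⟩ := (Set.finite_range fun y : t => |U y|).bddAbove
    exact ⟨R, fun y => hR ⟨y, rfl⟩⟩
  set R' : ℝ := max R 1 with hR'
  have hR'0 : 0 < R' := lt_of_lt_of_le one_pos (le_max_right _ _)
  refine ⟨2 * R', by positivity, fun s => ?_⟩
  obtain ⟨y, hy⟩ := Set.mem_iUnion.1 (hcov ⟨s + R', rfl⟩)
  obtain ⟨hyt, hy⟩ := Set.mem_iUnion.1 hy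
  have h3 : dist (Ψ (s + R')) y < δ' := hy
  have h4 := hR ⟨y, hyt⟩
  have h5 := hU ⟨y, hyt⟩
  set v := U ⟨y, hyt⟩ with hv
  rw [abs_le] at h4
  have h6 : R ≤ R' := le_max_left _ _
  refine ⟨s + R' - v, ⟨by linarith, by linarith⟩, fun u => ?_⟩
  have h7 : ∀ x ∈ TX X, ‖ee (fr x) (s + R' - v) - 1‖ ≤ δ' := by
    intro x hx
    have h8 : ‖ee (fr x) (s + R') - ee (fr x) v‖ ≤ δ' := by
      have h9 := (dist_pi_lt_iff hδ'0).1 h3 ⟨x, hx⟩
      simp only at h5
      rw [← h5, dist_eq_norm] at h9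
      exact h9.le
    have h9 : ee (fr x) (s + R') = ee (fr x) (s + R' - v) * ee (fr x) v := by
      rw [← ee_add]
      congr 1
      ring
    rw [h9, show ee (fr x) (s + R' - v) * ee (fr x) v - ee (fr x) v =
      (ee (fr x) (s + R' - v) - 1) * ee (fr x) v by ring, norm_mul, norm_ee, mul_one] at h8
    exact h8
  unfold PSa
  rw [← Finset.sum_sub_distrib]
  calc ‖∑ x ∈ TX X, (a x * ee (fr x) (u + (s + R' - v)) - a x * ee (fr x) u)‖
      ≤ ∑ x ∈ TX X, ‖a x‖ * δ' := by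
        refine norm_sum_le_of_le _ fun x hx => ?_
        rw [ee_add, show a x * (ee (fr x) u * ee (fr x) (s + R' - v)) - a x * ee (fr x) u =
          a x * ee (fr x) u * (ee (fr x) (s + R' - v) - 1) by ring, norm_mul, norm_mul, norm_ee,
          mul_one]
        exact mul_le_mul_of_nonneg_left (h7 x hx) (norm_nonneg _)
    _ = C₀ * δ' := by rw [← Finset.sum_mul]
    _ ≤ δ := by
        rw [hδ', mul_div_assoc', div_le_iff₀ (by positivity)]
        nlinarith

/-- **Almost periodicity in the mean square over unit intervals.** -/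
theorem Apx.sap (h : Apx a lam η) {ε : ℝ} (hε : 0 < ε) :
    ∃ l : ℝ, 0 < l ∧ ∀ s : ℝ, ∃ τ ∈ Set.Icc s (s + l), ∀ t : ℝ,
      ∫ u in t..(t + 1), ‖lam (u + τ) - lam u‖ ^ 2 ≤ ε := by
  have hlim : Tendsto (fun X => 12 * η X) atTop (𝓝 0) := by
    have := h.lim.const_mul 12
    simpa using this
  obtain ⟨X, ⟨h1, h2⟩, h3⟩ := ((hlim.eventually_lt_const (half_pos hε)).and h.l2).and
    h.ii_diff |>.exists
  obtain ⟨l, hl, h4⟩ := PSa_ap a X (δ := Real.sqrt (ε / 6)) (Real.sqrt_pos.2 (by positivity))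
  refine ⟨l, hl, fun s => ?_⟩
  obtain ⟨τ, hτ, h5⟩ := h4 s
  refine ⟨τ, hτ, fun t => ?_⟩
  have hshift : IntervalIntegrable (fun u => ‖lam (u + τ) - PSa a X (u + τ)‖ ^ 2) volume t (t + 1) := by
    have := (h3.2 (t + τ) (t + 1 + τ)).comp_add_right τ
    simpa using this
  have h6 : ∫ u in t..(t + 1), ‖lam (u + τ) - lam u‖ ^ 2 ≤
      ∫ u in t..(t + 1), (3 * ‖lam (u + τ) - PSa a X (u + τ)‖ ^ 2 +
        3 * ‖lam u - PSa a X u‖ ^ 2 + ε / 2) := by
    by_cases hii : IntervalIntegrable (fun u => ‖lam (u + τ) - lam u‖ ^ 2) volume t (t + 1)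
    · refine intervalIntegral.integral_mono_on (by linarith) hii
        (((hshift.const_mul 3).add ((h3.2 _ _).const_mul 3)).add intervalIntegrable_const)
        fun u _ => ?_
      have h7 : ‖lam (u + τ) - lam u‖ ≤ ‖lam (u + τ) - PSa a X (u + τ)‖ + ‖lam u - PSa a X u‖ +
          Real.sqrt (ε / 6) := by
        calc ‖lam (u + τ) - lam u‖ = ‖(lam (u + τ) - PSa a X (u + τ)) + (-(lam u - PSa a X u)) +
              (PSa a X (u + τ) - PSa a X u)‖ := by
              congr 1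
              ring
          _ ≤ _ := by
              refine norm_add₃_le.trans ?_
              rw [norm_neg]
              exact add_le_add le_rfl (h5 u)
      have h8 : Real.sqrt (ε / 6) ^ 2 = ε / 6 := Real.sq_sqrt (by positivity)
      have h9 := Real.sqrt_nonneg (ε / 6)
      have h10 := norm_nonneg (lam (u + τ) - PSa a X (u + τ))
      have h11 := norm_nonneg (lam u - PSa a X u)
      have h12 := norm_nonneg (lam (u + τ) - lam u)
      nlinarith [sq_nonneg (‖lam (u + τ) - PSa a X (u + τ)‖ - ‖lam u - PSa a X u‖),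
        sq_nonneg (‖lam (u + τ) - PSa a X (u + τ)‖ - Real.sqrt (ε / 6)),
        sq_nonneg (‖lam u - PSa a X u‖ - Real.sqrt (ε / 6)),
        mul_le_mul h7 h7 h12 (by positivity)]
    · rw [intervalIntegral.integral_undef hii]
      exact intervalIntegral.integral_nonneg (by linarith) fun u _ => by positivity
  rw [intervalIntegral.integral_add ((hshift.const_mul 3).add ((h3.2 _ _).const_mul 3))
    intervalIntegrable_const, intervalIntegral.integral_add (hshift.const_mul 3)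
    ((h3.2 _ _).const_mul 3), intervalIntegral.integral_const_mul,
    intervalIntegral.integral_const_mul, intervalIntegral.integral_const] at h6
  have h7 := h2 t 1 le_rfl
  have h8 := h2 (t + τ) 1 le_rfl
  have h9 : ∫ u in t..(t + 1), ‖lam (u + τ) - PSa a X (u + τ)‖ ^ 2 =
      ∫ u in (t + τ)..(t + τ + 1), ‖lam u - PSa a X u‖ ^ 2 := by
    rw [intervalIntegral.integral_comp_add_right (fun u => ‖lam u - PSa a X u‖ ^ 2) τ]
    congr 1
    ring
  rw [h9] at h6
  simp only [add_sub_cancel_left, smul_eq_mul, one_mul] at h6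
  linarith

end

end Pool.Agent.V8H35.BJ
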